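import Pool.Agent.H69Cubic.Defs

/-!
# Formal power series toolkit: the substitutions `DD`, `Psi`, `Theta`, and the series
`YY`, `E1`, `E2` with their derivatives in the coefficient variable
-/

set_option autoImplicit false

namespace Pool.Agent.H69Cubic

open Finset Polynomial

section D
variable {S : Type} [CommRing S] (z : PowerSeries S) (hz : PowerSeries.X ∣ z)
include hz

theorem series_coeff_pow_mul_eq_zero {i n : ℕ} (hin : n < i) (G : PowerSeries S) :
    PowerSeries.coeff n (z ^ i * G) = 0 := by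
  obtain ⟨w, rfl⟩ := hz
  have h : PowerSeries.X ^ i ∣ (PowerSeries.X * w) ^ i * G := by
    rw [mul_pow, mul_assoc]; exact dvd_mul_right _ _
  exact (PowerSeries.X_pow_dvd_iff.1 h) n hin

theorem series_coeff_DD (F : PowerSeries (PowerSeries S)) {n N : ℕ} (h : n < N) :
    PowerSeries.coeff n (DD z F) =
      ∑ i ∈ range N, PowerSeries.coeff n (z ^ i * PowerSeries.coeff i F) := by
  rw [DD, PowerSeries.coeff_mk]
  refine Finset.sum_subset (Finset.range_subset_range.2 h) ?_
  intro i _ hi
  refine series_coeff_pow_mul_eq_zero z hz ?_ _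
  simpa [Finset.mem_range, Nat.lt_succ_iff] using hi

theorem DD_trunc (F : PowerSeries (PowerSeries S)) (M : ℕ) :
    PowerSeries.X ^ M ∣ DD z F - ∑ i ∈ range M, z ^ i * PowerSeries.coeff i F := by
  rw [PowerSeries.X_pow_dvd_iff]
  intro m hm
  rw [map_sub, map_sum, series_coeff_DD z hz F hm, sub_self]

theorem DD_mul (F G : PowerSeries (PowerSeries S)) : DD z (F * G) = DD z F * DD z G := by
  ext n
  have hN : n < n + 1 := Nat.lt_succ_self n
  rw [series_coeff_DD z hz (F * G) hN, PowerSeries.coeff_mul]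
  set N := n + 1 with hNdef
  have hf : ∀ p q : ℕ, N ≤ p + q → PowerSeries.coeff n
      (z ^ (p + q) * (PowerSeries.coeff p F * PowerSeries.coeff q G)) = 0 := by
    intro p q hpq
    exact series_coeff_pow_mul_eq_zero z hz (by omega) _
  have hR : ∑ x ∈ antidiagonal n, PowerSeries.coeff x.1 (DD z F) *
      PowerSeries.coeff x.2 (DD z G) =
      ∑ p ∈ range N, ∑ q ∈ range N, PowerSeries.coeff n
        (z ^ (p + q) * (PowerSeries.coeff p F * PowerSeries.coeff q G)) := by
    have h1 : ∀ x ∈ antidiagonal n, PowerSeries.coeff x.1 (DD z F) *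
        PowerSeries.coeff x.2 (DD z G) =
        ∑ p ∈ range N, ∑ q ∈ range N,
          PowerSeries.coeff x.1 (z ^ p * PowerSeries.coeff p F) *
          PowerSeries.coeff x.2 (z ^ q * PowerSeries.coeff q G) := by
      intro x hx
      have hx' := mem_antidiagonal.1 hx
      rw [series_coeff_DD z hz F (show x.1 < N by omega),
        series_coeff_DD z hz G (show x.2 < N by omega), Finset.sum_mul_sum]
    rw [Finset.sum_congr rfl h1, Finset.sum_comm]
    refine Finset.sum_congr rfl fun p _ => ?_
    rw [Finset.sum_comm]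
    refine Finset.sum_congr rfl fun q _ => ?_
    rw [← PowerSeries.coeff_mul]
    congr 1
    rw [pow_add]; ring
  rw [hR]
  have hL : ∑ i ∈ range N, PowerSeries.coeff n (z ^ i * PowerSeries.coeff i (F * G)) =
      ∑ i ∈ range N, ∑ x ∈ antidiagonal i, PowerSeries.coeff n
        (z ^ (x.1 + x.2) * (PowerSeries.coeff x.1 F * PowerSeries.coeff x.2 G)) := by
    refine Finset.sum_congr rfl fun i _ => ?_
    rw [PowerSeries.coeff_mul i F G, Finset.mul_sum, map_sum]
    refine Finset.sum_congr rfl fun x hx => ?_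
    rw [mem_antidiagonal.1 hx]
  rw [hL, ← Finset.sum_product']
  rw [← Finset.sum_filter_of_ne (s := range N ×ˢ range N) (p := fun x => x.1 + x.2 < N)
    (f := fun x : ℕ × ℕ => PowerSeries.coeff n
      (z ^ (x.1 + x.2) * (PowerSeries.coeff x.1 F * PowerSeries.coeff x.2 G)))
    (by
      intro x _ hx
      by_contra hc
      exact hx (hf x.1 x.2 (by omega)))]
  rw [← Finset.sum_fiberwise_of_maps_to (s := (range N ×ˢ range N).filter
      fun x => x.1 + x.2 < N) (t := range N) (g := fun x : ℕ × ℕ => x.1 + x.2)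
    (by
      intro x hx
      simpa using (Finset.mem_filter.1 hx).2)]
  refine Finset.sum_congr rfl fun i hi => ?_
  refine Finset.sum_congr ?_ fun _ _ => rfl
  ext x
  simp only [Finset.HasAntidiagonal.mem_antidiagonal, Finset.mem_filter, Finset.mem_product,
    Finset.mem_range]
  have := Finset.mem_range.1 hi
  constructor
  · intro h; omega
  · intro h; omega

set_option linter.unusedSectionVars false in
theorem DD_add (F G : PowerSeries (PowerSeries S)) : DD z (F + G) = DD z F + DD z G := by
  ext n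
  simp [DD, mul_add, Finset.sum_add_distrib]

set_option linter.unusedSectionVars false in
theorem DD_C (c : PowerSeries S) : DD z (PowerSeries.C c) = c := by
  ext n
  rw [DD, PowerSeries.coeff_mk, Finset.sum_eq_single 0]
  · simp
  · intro i _ hi
    rw [PowerSeries.coeff_C, if_neg hi]; simp
  · intro h; simp at h

theorem DD_X : DD z PowerSeries.X = z := by
  ext n
  rw [series_coeff_DD z hz PowerSeries.X (show n < n + 2 by omega), Finset.sum_eq_single 1]
  · simp
  · intro i _ hi
    rw [PowerSeries.coeff_X, if_neg hi]; simp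
  · intro h; simp at h

theorem DD_pow (F : PowerSeries (PowerSeries S)) (k : ℕ) : DD z (F ^ k) = DD z F ^ k := by
  induction k with
  | zero =>
    have := DD_C z hz (1 : PowerSeries S)
    simpa using this
  | succ k ih => rw [pow_succ, pow_succ, DD_mul z hz, ih]

end D

theorem Psi_mul (a : ℝ) (F G : PowerSeries ℝ[X]) : Psi a (F * G) = Psi a F * Psi a G := by
  rw [Psi, map_mul, DD_mul _ dvd_rfl]; rfl

theorem Psi_pow (a : ℝ) (F : PowerSeries ℝ[X]) (k : ℕ) : Psi a (F ^ k) = Psi a F ^ k := by
  rw [Psi, map_pow, DD_pow _ dvd_rfl]; rfl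

theorem Psi_add (a : ℝ) (F G : PowerSeries ℝ[X]) : Psi a (F + G) = Psi a F + Psi a G := by
  rw [Psi, map_add, DD_add _ dvd_rfl]; rfl

theorem Psi_C (a : ℝ) (p : ℝ[X]) : Psi a (PowerSeries.C p) = Polynomial.aeval (hh a) p := by
  rw [Psi, PowerSeries.map_C, DD_C _ dvd_rfl]; rfl

theorem Psi_X (a : ℝ) : Psi a PowerSeries.X = PowerSeries.X := by
  rw [Psi, PowerSeries.map_X, DD_X _ dvd_rfl]

theorem Theta_pow (a : ℝ) (P : PowerSeries ℝ) (k : ℕ) : Theta a (P ^ k) = Theta a P ^ k := by
  rw [Theta, map_pow, DD_pow]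
  · rfl
  · exact (dvd_pow_self _ two_ne_zero).mul_right _

theorem YY_add (a s r : ℝ) : YY a (s + r) = YY a s * YY a r := by
  rw [YY, PowerSeries.binomialSeries_add, map_mul]; rfl

theorem YY_zero (a : ℝ) : YY a 0 = 1 := by
  rw [YY, PowerSeries.binomialSeries_zero, map_one]

theorem coeff_YY (a s : ℝ) (n : ℕ) :
    PowerSeries.coeff n (YY a s) = C (Ring.choose s n * (2 * a) ^ n) * X ^ n := by
  rw [YY, PowerSeries.coeff_rescale, PowerSeries.binomialSeries_coeff, Polynomial.smul_eq_C_mul,
    mul_pow, ← C_pow, C_mul]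
  ring

theorem YY_one (a : ℝ) : YY a 1 = 1 + PowerSeries.C (C (2 * a) * X) * PowerSeries.X := by
  ext n : 1
  rw [coeff_YY]
  rcases n with _ | _ | n
  · simp
  · simp [PowerSeries.coeff_one]
  · have h : Ring.choose (1 : ℝ) (n + 1 + 1) = 0 := by
      have := Ring.choose_natCast (R := ℝ) 1 (n + 1 + 1)
      rw [Nat.cast_one] at this
      rw [this, Nat.choose_eq_zero_of_lt (by omega), Nat.cast_zero]
    simp [h, PowerSeries.coeff_one]

theorem series_choose_succ (s : ℝ) (n : ℕ) :
    ((n : ℝ) + 1) * Ring.choose s (n + 1) = s * Ring.choose (s - 1) n := by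
  have h := Ring.choose_smul_choose s (n := n + 1) (k := 1) (by omega)
  simpa [Nat.choose_one_right, Ring.choose_one_right] using h

theorem dx_YY (a s : ℝ) :
    dx (YY a s) = PowerSeries.C (C (2 * a * s)) * PowerSeries.X * YY a (s - 1) := by
  ext n : 1
  rw [mul_assoc, PowerSeries.coeff_C_mul]
  have hd : PowerSeries.coeff n (dx (YY a s)) =
      derivative (PowerSeries.coeff n (YY a s)) := by simp [dx]
  rw [hd, coeff_YY]
  cases n with
  | zero =>
    simp [PowerSeries.coeff_zero_X_mul]
  | succ n =>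
    rw [PowerSeries.coeff_succ_X_mul, coeff_YY, derivative_C_mul, derivative_X_pow]
    rw [Nat.add_sub_cancel, ← mul_assoc, ← mul_assoc, ← C_mul, ← C_mul]
    congr 2
    have h := series_choose_succ s n
    rw [Nat.cast_add, Nat.cast_one]
    linear_combination (2 * a) ^ (n + 1) * h

theorem E1_add (p q : ℝ[X]) : E1 (p + q) = E1 p * E1 q := by
  ext n : 1
  rw [PowerSeries.coeff_mul]
  simp only [E1, PowerSeries.coeff_mk]
  rw [(Commute.all p q).add_pow', Finset.mul_sum]
  refine Finset.sum_congr rfl fun x hx => ?_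
  have hx' := mem_antidiagonal.1 hx
  have hfac : ((n.choose x.1 : ℕ) : ℝ) * ((x.1).factorial : ℝ) * ((x.2).factorial : ℝ) =
      (n.factorial : ℝ) := by
    have := Nat.choose_mul_factorial_mul_factorial (n := n) (k := x.1) (by omega)
    rw [show n - x.1 = x.2 by omega] at this
    exact_mod_cast this
  have h1 : ((x.1).factorial : ℝ) ≠ 0 := by positivity
  have h2 : ((x.2).factorial : ℝ) ≠ 0 := by positivity
  have h3 : (n.factorial : ℝ) ≠ 0 := by positivity
  have hc : ((n.factorial : ℝ)⁻¹) * (n.choose x.1 : ℝ) =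
      ((x.1).factorial : ℝ)⁻¹ * ((x.2).factorial : ℝ)⁻¹ := by
    field_simp
    linear_combination hfac
  have : C ((n.factorial : ℝ)⁻¹) * (n.choose x.1 • (p ^ x.1 * q ^ x.2)) =
      C (((n.factorial : ℝ)⁻¹) * (n.choose x.1 : ℝ)) * (p ^ x.1 * q ^ x.2) := by
    rw [C_mul, nsmul_eq_mul, ← mul_assoc]
    congr 2
  rw [this, hc, C_mul]
  ring

theorem E1_zero : E1 0 = 1 := by
  ext n : 1
  simp only [E1, PowerSeries.coeff_mk, PowerSeries.coeff_one]
  rcases n with _ | n
  · simp
  · simp

theorem dx_E1 (p : ℝ[X]) : dx (E1 p) = PowerSeries.C (derivative p) * PowerSeries.X * E1 p := by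
  ext n : 1
  rw [mul_assoc, PowerSeries.coeff_C_mul]
  have hd : PowerSeries.coeff n (dx (E1 p)) =
      derivative (C ((n.factorial : ℝ)⁻¹) * p ^ n) := by simp [dx, E1]
  rw [hd]
  cases n with
  | zero => simp [PowerSeries.coeff_zero_X_mul]
  | succ n =>
    rw [PowerSeries.coeff_succ_X_mul, derivative_C_mul, derivative_pow_succ]
    simp only [E1, PowerSeries.coeff_mk]
    have h : ((n + 1).factorial : ℝ)⁻¹ * ((n : ℝ) + 1) = (n.factorial : ℝ)⁻¹ := by
      rw [Nat.factorial_succ]
      have h1 : (n.factorial : ℝ) ≠ 0 := by positivity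
      have h2 : ((n : ℝ) + 1) ≠ 0 := by positivity
      push_cast
      field_simp
    rw [← h, C_mul]
    ring

theorem E2_eq (p : ℝ[X]) (n : ℕ) : PowerSeries.coeff n (E2 p) =
    if Even n then C (((n / 2).factorial : ℝ)⁻¹) * p ^ (n / 2) else 0 := by
  simp [E2]

theorem series_coeff_E2_two_mul (p : ℝ[X]) (n : ℕ) :
    PowerSeries.coeff (2 * n) (E2 p) = PowerSeries.coeff n (E1 p) := by
  rw [E2_eq, if_pos (even_two_mul n), Nat.mul_div_cancel_left n two_pos]
  simp [E1]

theorem series_coeff_E2_odd (p : ℝ[X]) {n : ℕ} (hn : ¬ Even n) :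
    PowerSeries.coeff n (E2 p) = 0 := by
  rw [E2_eq, if_neg hn]

theorem E2_add (p q : ℝ[X]) : E2 (p + q) = E2 p * E2 q := by
  ext n : 1
  rw [PowerSeries.coeff_mul]
  by_cases hn : Even n
  · obtain ⟨m, hm⟩ := hn
    obtain rfl : n = 2 * m := by omega
    rw [series_coeff_E2_two_mul, E1_add, PowerSeries.coeff_mul]
    have hinj : Function.Injective (fun x : ℕ × ℕ => (2 * x.1, 2 * x.2)) := by
      intro x y h
      simp only [Prod.mk.injEq] at h
      ext
      · omega
      · omega
    rw [← Finset.sum_subset (s₁ := (HasAntidiagonal.antidiagonal m).map ⟨_, hinj⟩)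
      (s₂ := HasAntidiagonal.antidiagonal (2 * m))]
    · rw [Finset.sum_map]
      refine Finset.sum_congr rfl fun x _ => ?_
      simp only [Function.Embedding.coeFn_mk]
      rw [series_coeff_E2_two_mul, series_coeff_E2_two_mul]
    · intro x hx
      simp only [Finset.mem_map, Finset.HasAntidiagonal.mem_antidiagonal,
        Function.Embedding.coeFn_mk] at hx ⊢
      obtain ⟨y, hy, rfl⟩ := hx
      simp only
      omega
    · intro x hx hx'
      by_cases h1 : Even x.1
      · exfalso
        apply hx'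
        have hx2 := mem_antidiagonal.1 hx
        obtain ⟨u, hu⟩ := h1
        simp only [Finset.mem_map, Finset.HasAntidiagonal.mem_antidiagonal,
        Function.Embedding.coeFn_mk]
        refine ⟨(u, m - u), by simp only; omega, ?_⟩
        ext
        · simp only; omega
        · simp only; omega
      · rw [series_coeff_E2_odd p h1, zero_mul]
  · rw [series_coeff_E2_odd _ hn]
    symm
    refine Finset.sum_eq_zero fun x hx => ?_
    have hx2 := mem_antidiagonal.1 hx
    by_cases h1 : Even x.1
    · have h2 : ¬ Even x.2 := by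
        intro h2
        exact hn (hx2 ▸ h1.add h2)
      rw [series_coeff_E2_odd q h2, mul_zero]
    · rw [series_coeff_E2_odd p h1, zero_mul]

theorem E2_zero : E2 0 = 1 := by
  ext n : 1
  rw [E2_eq, PowerSeries.coeff_one]
  rcases n with _ | _ | n
  · simp
  · simp
  · by_cases h : Even (n + 1 + 1)
    · have : (n + 1 + 1) / 2 ≠ 0 := by omega
      simp [h, this]
    · simp [h]

theorem dx_E2 (p : ℝ[X]) :
    dx (E2 p) = PowerSeries.C (derivative p) * PowerSeries.X ^ 2 * E2 p := by
  ext n : 1
  rw [mul_assoc, PowerSeries.coeff_C_mul]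
  have hd : PowerSeries.coeff n (dx (E2 p)) =
      derivative (PowerSeries.coeff n (E2 p)) := by simp [dx]
  rw [hd]
  rcases n with _ | _ | n
  · rw [show (0 : ℕ) = 2 * 0 from rfl, series_coeff_E2_two_mul]
    simp [E1, PowerSeries.coeff_X_pow_mul']
  · rw [series_coeff_E2_odd p (by decide)]
    simp [PowerSeries.coeff_X_pow_mul']
  · rw [PowerSeries.coeff_X_pow_mul', if_pos (by omega), show n + 1 + 1 - 2 = n by omega]
    by_cases h : Even n
    · obtain ⟨m, hm⟩ := h
      obtain rfl : n = 2 * m := by omega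
      rw [series_coeff_E2_two_mul, show 2 * m + 1 + 1 = 2 * (m + 1) by ring,
        series_coeff_E2_two_mul]
      have h := congrArg (PowerSeries.coeff (m + 1)) (dx_E1 p)
      rw [mul_assoc, PowerSeries.coeff_C_mul, PowerSeries.coeff_succ_X_mul] at h
      rw [← h]
      simp [dx]
    · have h' : ¬ Even (n + 1 + 1) := by
        rw [Nat.even_add_one, Nat.even_add_one]; simpa using h
      rw [series_coeff_E2_odd p h', series_coeff_E2_odd p h]
      simp

theorem dx_mul (F G : PowerSeries ℝ[X]) : dx (F * G) = dx F * G + F * dx G := by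
  ext n : 1
  have hd : ∀ (H : PowerSeries ℝ[X]) (m : ℕ), PowerSeries.coeff m (dx H) =
      derivative (PowerSeries.coeff m H) := by
    intro H m; simp [dx]
  rw [map_add, hd, PowerSeries.coeff_mul, PowerSeries.coeff_mul, PowerSeries.coeff_mul,
    derivative_sum, ← Finset.sum_add_distrib]
  refine Finset.sum_congr rfl fun x _ => ?_
  rw [derivative_mul, hd, hd]

end Pool.Agent.H69Cubic
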