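import Pool.Agent.H69Cubic.Defs
import Pool.Agent.H69Cubic.Series

/-! Change of variables in a formal Gaussian functional. -/

set_option autoImplicit false

namespace Pool.Agent.H69Cubic

open Finset Polynomial

theorem Change_Lam_C_mul_X_pow (c : ℝ) (n : ℕ) : Lam (C c * X ^ n) = mom n * c := by
  rw [Lam, Polynomial.C_mul_X_pow_eq_monomial, Polynomial.lsum_apply,
    Polynomial.sum_monomial_index _ _ (by simp)]
  simp

theorem Change_mom_succ (n : ℕ) : mom (n + 2) = - ((n : ℝ) + 1) * mom n := by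
  unfold mom
  by_cases h : Even n
  · have h2 : Even (n + 2) := by
      rcases h with ⟨k, rfl⟩
      exact ⟨k + 1, by ring⟩
    rw [if_pos h, if_pos h2]
    rcases h with ⟨k, rfl⟩
    have e1 : (k + k + 2) / 2 = k + 1 := by omega
    have e2 : (k + k) / 2 = k := by omega
    rw [e1, e2]
    rcases Nat.eq_zero_or_pos k with rfl | hk
    · simp
    · have e3 : k + k + 2 - 1 = (k + k - 1) + 2 := by omega
      rw [e3, Nat.doubleFactorial_add_two]
      have e4 : k + k - 1 + 2 = k + k + 1 := by omega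
      rw [e4]
      push_cast
      ring
  · have h2 : ¬ Even (n + 2) := by
      intro h2
      apply h
      rcases h2 with ⟨k, hk⟩
      exact ⟨k - 1, by omega⟩
    rw [if_neg h, if_neg h2, mul_zero]

theorem lam_ibp (p : ℝ[X]) : Lam (derivative p) = - Lam (X * p) := by
  induction p using Polynomial.induction_on' with
  | add p q hp hq => rw [derivative_add, map_add, hp, hq, mul_add, map_add]; ring
  | monomial n c =>
    rw [← Polynomial.C_mul_X_pow_eq_monomial, derivative_C_mul_X_pow]
    rw [show (X : ℝ[X]) * (C c * X ^ n) = C c * X ^ (n + 1) by ring]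
    rw [Change_Lam_C_mul_X_pow, Change_Lam_C_mul_X_pow]
    rcases n with _ | n
    · simp [mom]
    · rw [Nat.add_sub_cancel, Change_mom_succ n]
      push_cast
      ring

/-- `dx` as a derivation. -/
noncomputable def ChangeDx : Derivation ℝ (PowerSeries ℝ[X]) (PowerSeries ℝ[X]) :=
  Derivation.mk' dx fun F G => by rw [dx_mul]; simp only [smul_eq_mul]; ring

theorem ChangeDx_apply (F : PowerSeries ℝ[X]) : ChangeDx F = dx F := rfl

theorem Change_leib {R : Type} [CommRing R] (F G : PowerSeries R) :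
    PowerSeries.derivative R (F * G) =
      F • PowerSeries.derivative R G + G • PowerSeries.derivative R F :=
  (PowerSeries.derivative R).leibniz F G

/-- the `t`-derivative as a derivation over `ℝ`. -/
noncomputable def ChangeDt : Derivation ℝ (PowerSeries ℝ[X]) (PowerSeries ℝ[X]) :=
  Derivation.mk'
    { toFun := fun F => PowerSeries.derivative ℝ[X] F
      map_add' := fun F G => map_add _ _ _
      map_smul' := fun c F => by
        ext n : 1
        rw [PowerSeries.coeff_derivative, RingHom.id_apply, PowerSeries.coeff_smul,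
          PowerSeries.coeff_smul, PowerSeries.coeff_derivative, smul_mul_assoc] }
    fun F G => Change_leib F G

theorem ChangeDt_apply (F : PowerSeries ℝ[X]) : ChangeDt F = PowerSeries.derivative ℝ[X] F := rfl

theorem Change_dx_C (p : ℝ[X]) : dx (PowerSeries.C p) = PowerSeries.C (derivative p) := by
  ext n : 1
  simp only [dx, LinearMap.coe_mk, AddHom.coe_mk, PowerSeries.coeff_mk, PowerSeries.coeff_C]
  split_ifs <;> simp

theorem Change_dx_X : dx PowerSeries.X = 0 := by
  ext n : 1
  simp only [dx, LinearMap.coe_mk, AddHom.coe_mk, PowerSeries.coeff_mk, PowerSeries.coeff_X]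
  split_ifs <;> simp

theorem Change_dx_hh (a : ℝ) : dx (hh a) = - YY a 1 := by
  rw [hh, map_sub, dx_mul, Change_dx_C, Change_dx_C, Change_dx_X, YY_one]
  simp only [derivative_neg, derivative_X, derivative_C_mul, derivative_X_pow, mul_zero, add_zero]
  simp only [map_neg, map_one, map_mul, Nat.cast_ofNat]
  norm_num
  ring

theorem Change_dt_hh (a : ℝ) : ChangeDt (hh a) = - PowerSeries.C (C a * X ^ 2) := by
  rw [hh, map_sub, Derivation.leibniz, ChangeDt_apply, ChangeDt_apply, ChangeDt_apply]
  simp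

theorem Change_dt_YY (a : ℝ) : ChangeDt (YY a 1) = PowerSeries.C (C (2 * a) * X) := by
  rw [YY_one, map_add, Derivation.leibniz, ChangeDt_apply, ChangeDt_apply, ChangeDt_apply]
  rw [PowerSeries.derivative_C, PowerSeries.derivative_one, PowerSeries.derivative_X]
  simp

theorem Change_dt_E1 (p : ℝ[X]) : ChangeDt (E1 p) = PowerSeries.C p * E1 p := by
  rw [ChangeDt_apply]
  ext n : 1
  rw [PowerSeries.coeff_derivative, PowerSeries.coeff_C_mul, E1, PowerSeries.coeff_mk,
    PowerSeries.coeff_mk, Nat.factorial_succ]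
  have h : ((n : ℝ) + 1) ≠ 0 := by positivity
  have h2 : ((n : ℝ[X]) + 1) = C ((n : ℝ) + 1) := by simp
  rw [h2, mul_assoc, mul_comm (p ^ (n + 1)), ← mul_assoc, ← C_mul]
  have h3 : (((n + 1) * n.factorial : ℕ) : ℝ)⁻¹ * ((n : ℝ) + 1) = ((n.factorial : ℝ))⁻¹ := by
    push_cast
    have : (n.factorial : ℝ) ≠ 0 := by exact_mod_cast n.factorial_ne_zero
    field_simp
  rw [h3, pow_succ]
  ring

theorem Change_dt_E2 (p : ℝ[X]) :
    ChangeDt (E2 p) = 2 * PowerSeries.C p * PowerSeries.X * E2 p := by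
  rw [ChangeDt_apply]
  ext n : 1
  rw [PowerSeries.coeff_derivative]
  rw [show (2 : PowerSeries ℝ[X]) * PowerSeries.C p * PowerSeries.X * E2 p =
    PowerSeries.C (2 * p) * E2 p * PowerSeries.X by
      rw [map_mul, map_ofNat]; ring]
  rcases n with _ | n
  · rw [PowerSeries.coeff_zero_mul_X]
    simp [E2]
  · rw [PowerSeries.coeff_succ_mul_X, PowerSeries.coeff_C_mul, E2, PowerSeries.coeff_mk,
      PowerSeries.coeff_mk]
    by_cases hn : Even n
    · have h2 : Even (n + 1 + 1) := by
        rcases hn with ⟨k, rfl⟩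
        exact ⟨k + 1, by ring⟩
      rw [if_pos hn, if_pos h2]
      rcases hn with ⟨k, rfl⟩
      have e1 : (k + k + 1 + 1) / 2 = k + 1 := by omega
      have e2 : (k + k) / 2 = k := by omega
      rw [e1, e2, Nat.factorial_succ]
      have h : ((k : ℝ) + 1) ≠ 0 := by positivity
      have h2 : (((k + k + 1 : ℕ) : ℝ[X]) + 1) = C (2 * ((k : ℝ) + 1)) := by
        rw [C_mul, show (C (2 : ℝ) : ℝ[X]) = 2 from rfl]
        simp
        ring
      rw [h2, mul_assoc, mul_comm (p ^ (k + 1)), ← mul_assoc, ← C_mul]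
      have h3 : (((k + 1) * k.factorial : ℕ) : ℝ)⁻¹ * (2 * ((k : ℝ) + 1)) =
          2 * ((k.factorial : ℝ))⁻¹ := by
        push_cast
        have : (k.factorial : ℝ) ≠ 0 := by exact_mod_cast k.factorial_ne_zero
        field_simp
      rw [h3, pow_succ, C_mul]
      rw [show (C (2 : ℝ) : ℝ[X]) = 2 from rfl]
      ring
    · have h2 : ¬ Even (n + 1 + 1) := by
        intro h2
        apply hn
        rcases h2 with ⟨k, hk⟩
        exact ⟨k - 1, by omega⟩
      rw [if_neg hn, if_neg h2]
      simp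

/-- the main identity: the `t`-derivative of the integrand is a total derivative. -/
theorem Change_main (a : ℝ) (p : ℝ[X]) :
    ChangeDt (Polynomial.aeval (hh a) p * YY a 1 * E1 (C a * X ^ 3) *
      E2 (C (a ^ 2 / 2) * X ^ 4)) =
    dx (PowerSeries.C (C a * X ^ 2) * Polynomial.aeval (hh a) p * E1 (C a * X ^ 3) *
      E2 (C (a ^ 2 / 2) * X ^ 4)) + PowerSeries.C X * (PowerSeries.C (C a * X ^ 2) *
        Polynomial.aeval (hh a) p * E1 (C a * X ^ 3) * E2 (C (a ^ 2 / 2) * X ^ 4)) := by
  rw [Derivation.leibniz, Derivation.leibniz, Derivation.leibniz, Derivation.map_aeval,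
    Change_dt_hh, Change_dt_YY, Change_dt_E1, Change_dt_E2]
  rw [dx_mul, dx_mul, dx_mul, dx_E1, dx_E2, Change_dx_C, ← ChangeDx_apply (Polynomial.aeval _ _),
    Derivation.map_aeval, ChangeDx_apply, Change_dx_hh]
  simp only [smul_eq_mul]
  rw [YY_one]
  have d1 : derivative (C a * X ^ 2 : ℝ[X]) = C (2 * a) * X := by
    simp only [derivative_C_mul, derivative_X_pow, C_mul]
    norm_num
    ring
  have d2 : derivative (C a * X ^ 3 : ℝ[X]) = C (3 * a) * X ^ 2 := by
    simp only [derivative_C_mul, derivative_X_pow, C_mul]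
    norm_num
    rw [show (C (3 : ℝ) : ℝ[X]) = 3 from rfl]
    ring
  have d3 : derivative (C (a ^ 2 / 2) * X ^ 4 : ℝ[X]) = C (2 * a ^ 2) * X ^ 3 := by
    rw [derivative_C_mul, derivative_X_pow]
    rw [show (C (2 * a ^ 2) : ℝ[X]) = C (a ^ 2 / 2) * C 4 by rw [← C_mul]; congr 1; ring]
    simp
    ring
  rw [d1, d2, d3]
  have c1 : (PowerSeries.C (C (2 * a) * X) : PowerSeries ℝ[X]) =
      2 * PowerSeries.C (C a) * PowerSeries.C X := by
    rw [C_mul, map_mul, map_mul]
    rfl
  have c2 : (PowerSeries.C (C a * X ^ 2) : PowerSeries ℝ[X]) =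
      PowerSeries.C (C a) * PowerSeries.C X ^ 2 := by
    rw [map_mul, map_pow]
  have c3 : (PowerSeries.C (C a * X ^ 3) : PowerSeries ℝ[X]) =
      PowerSeries.C (C a) * PowerSeries.C X ^ 3 := by
    rw [map_mul, map_pow]
  have c4 : (PowerSeries.C (C (3 * a) * X ^ 2) : PowerSeries ℝ[X]) =
      3 * PowerSeries.C (C a) * PowerSeries.C X ^ 2 := by
    rw [C_mul, map_mul, map_mul, map_pow]
    rfl
  have c5 : (PowerSeries.C (C (2 * a ^ 2) * X ^ 3) : PowerSeries ℝ[X]) =
      2 * PowerSeries.C (C a) ^ 2 * PowerSeries.C X ^ 3 := by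
    rw [C_mul, map_mul, map_mul, map_pow, map_pow, map_pow]
    rfl
  have c6 : (2 : PowerSeries ℝ[X]) * PowerSeries.C (C (a ^ 2 / 2) * X ^ 4) =
      PowerSeries.C (C a) ^ 2 * PowerSeries.C X ^ 4 := by
    have h : (2 : ℝ[X]) * (C (a ^ 2 / 2) * X ^ 4) = C a ^ 2 * X ^ 4 := by
      rw [← C_pow, show (2 : ℝ[X]) = C 2 from rfl, ← mul_assoc, ← C_mul]
      congr 2
      ring
    have h' := congrArg (PowerSeries.C (R := ℝ[X])) h
    simp only [map_mul, map_pow, map_ofNat] at h' ⊢
    exact h'
  rw [c6, c1, c2, c3, c4, c5]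
  ring

theorem Change_Lam_neg (p : ℝ[X]) : Lam (p.comp (-X)) = Lam p := by
  induction p using Polynomial.induction_on' with
  | add p q hp hq => rw [add_comp, map_add, map_add, hp, hq]
  | monomial n c =>
    rw [← Polynomial.C_mul_X_pow_eq_monomial, mul_comp, pow_comp, X_comp, C_comp]
    rcases Nat.even_or_odd n with h | h
    · rw [h.neg_pow]
    · rw [h.neg_pow, mul_neg, map_neg, Change_Lam_C_mul_X_pow]
      rw [mom, if_neg (Nat.not_even_iff_odd.mpr h)]
      simp

/-- change of variables for one polynomial (times a power of `t` by linearity) -/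
theorem change_poly (a : ℝ) (p : ℝ[X]) (n : ℕ) :
    Lam (PowerSeries.coeff n (Polynomial.aeval (hh a) p * YY a 1 * E1 (C a * X ^ 3) *
      E2 (C (a ^ 2 / 2) * X ^ 4))) = if n = 0 then Lam p else 0 := by
  rcases n with _ | n
  · rw [if_pos rfl, PowerSeries.coeff_zero_eq_constantCoeff_apply]
    have h1 : PowerSeries.constantCoeff (YY a 1) = (1 : ℝ[X]) := by
      rw [YY_one]
      simp
    have h2 : ∀ q : ℝ[X], PowerSeries.constantCoeff (E1 q) = (1 : ℝ[X]) := by
      intro q
      rw [← PowerSeries.coeff_zero_eq_constantCoeff_apply, E1, PowerSeries.coeff_mk]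
      simp
    have h3 : ∀ q : ℝ[X], PowerSeries.constantCoeff (E2 q) = (1 : ℝ[X]) := by
      intro q
      rw [← PowerSeries.coeff_zero_eq_constantCoeff_apply, E2, PowerSeries.coeff_mk]
      simp
    have h7 : PowerSeries.constantCoeff (Polynomial.aeval (hh a) p * YY a 1 *
        E1 (C a * X ^ 3) * E2 (C (a ^ 2 / 2) * X ^ 4)) =
        PowerSeries.constantCoeff (Polynomial.aeval (hh a) p) := by
      rw [map_mul, map_mul, map_mul, h1, h2, h3, mul_one, mul_one, mul_one]
    rw [h7]
    have h4 : PowerSeries.constantCoeff (Polynomial.aeval (hh a) p) = p.comp (-X) := by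
      have h5 : (PowerSeries.constantCoeff (R := ℝ[X])) (Polynomial.aeval (hh a) p) =
          Polynomial.eval₂ ((PowerSeries.constantCoeff (R := ℝ[X])).comp
            (algebraMap ℝ (PowerSeries ℝ[X]))) (PowerSeries.constantCoeff (hh a)) p := by
        rw [Polynomial.aeval_def, Polynomial.hom_eval₂]
      rw [h5]
      have h6 : PowerSeries.constantCoeff (hh a) = -X := by
        rw [hh]
        simp
      rw [h6]
      rfl
    rw [h4, Change_Lam_neg]
  · rw [if_neg (Nat.succ_ne_zero n)]
    have h := congrArg (fun F => Lam (PowerSeries.coeff n F)) (Change_main a p)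
    simp only [ChangeDt_apply, PowerSeries.coeff_derivative, map_add, PowerSeries.coeff_C_mul]
      at h
    rw [show (PowerSeries.coeff n (dx (PowerSeries.C (C a * X ^ 2) * Polynomial.aeval (hh a) p *
      E1 (C a * X ^ 3) * E2 (C (a ^ 2 / 2) * X ^ 4)))) =
      derivative (PowerSeries.coeff n (PowerSeries.C (C a * X ^ 2) * Polynomial.aeval (hh a) p *
      E1 (C a * X ^ 3) * E2 (C (a ^ 2 / 2) * X ^ 4))) by
        simp only [dx, LinearMap.coe_mk, AddHom.coe_mk, PowerSeries.coeff_mk], lam_ibp,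
      neg_add_cancel] at h
    have h2 : ((n : ℝ[X]) + 1) = C ((n : ℝ) + 1) := by simp
    rw [h2, mul_comm, ← Polynomial.smul_eq_C_mul, map_smul, smul_eq_mul] at h
    rcases mul_eq_zero.mp h with h | h
    · exfalso
      have : (n : ℝ) + 1 ≠ 0 := by positivity
      exact this h
    · exact h

theorem Change_expand {R : Type} [CommRing R] (n : ℕ) (t Q A B D : R) (f : ℕ → R) :
    (∑ i ∈ range (n + 1), t ^ i * f i + t ^ (n + 1) * Q) * A * B * D =
      ∑ i ∈ range (n + 1), t ^ i * (f i * A * B * D) + t ^ (n + 1) * (Q * A * B * D) := by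
  rw [add_mul, add_mul, add_mul, Finset.sum_mul, Finset.sum_mul, Finset.sum_mul]
  congr 1
  · exact Finset.sum_congr rfl fun i _ => by ring
  · ring

theorem change_var (a : ℝ) (F : PowerSeries ℝ[X]) (n : ℕ) :
    Lam (PowerSeries.coeff n F) = Lam (PowerSeries.coeff n
      (Psi a F * YY a 1 * E1 (C a * X ^ 3) * E2 (C (a ^ 2 / 2) * X ^ 4))) := by
  obtain ⟨Q, hQ⟩ := DD_trunc (S := ℝ[X]) PowerSeries.X dvd_rfl
    (PowerSeries.map (Polynomial.aeval (hh a)).toRingHom F) (n + 1)
  have hP : Psi a F = ∑ i ∈ range (n + 1), PowerSeries.X ^ i *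
      Polynomial.aeval (hh a) (PowerSeries.coeff i F) + PowerSeries.X ^ (n + 1) * Q := by
    rw [← hQ, Psi]
    simp only [PowerSeries.coeff_map]
    simp
  rw [hP]
  rw [Change_expand]
  rw [LinearMap.map_add (PowerSeries.coeff n), PowerSeries.coeff_X_pow_mul', if_neg (by omega),
    add_zero, map_sum (PowerSeries.coeff n), map_sum Lam]
  have hterm : ∀ i ∈ range (n + 1), Lam (PowerSeries.coeff n (PowerSeries.X ^ i *
      (Polynomial.aeval (hh a) (PowerSeries.coeff i F) *
        YY a 1 * E1 (C a * X ^ 3) * E2 (C (a ^ 2 / 2) * X ^ 4)))) =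
      if i = n then Lam (PowerSeries.coeff n F) else 0 := by
    intro i hi
    rw [PowerSeries.coeff_X_pow_mul', if_pos (by have := mem_range.mp hi; omega), change_poly]
    by_cases h : i = n
    · rw [if_pos h, if_pos (by omega), h]
    · rw [if_neg h, if_neg (by have := mem_range.mp hi; omega)]
  rw [Finset.sum_congr rfl hterm, Finset.sum_ite_eq', if_pos (by simp)]

end Pool.Agent.H69Cubic
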