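import Pool.Agent.H69Cubic.Series

/-! The one-colour series after the change of variables. -/

set_option autoImplicit false

namespace Pool.Agent.H69Cubic

open Finset Polynomial

theorem Ode_algMap (r : ℝ) : algebraMap ℝ (PowerSeries ℝ[X]) r = PowerSeries.C (C r) := by
  rw [PowerSeries.algebraMap_apply]; rfl

/-- The differential equation of the one-colour series (coefficientwise form). -/
theorem He_ode (K : ℝ) (n : ℕ) : derivative (He K (n + 1)) = C ((n : ℝ) + 1) * He K n := by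
  induction n with
  | zero => simp [He]
  | succ n ih =>
    have h1 : He K (n + 1 + 1) = X * He K (n + 1) + C K * derivative (He K (n + 1)) := rfl
    have h2 : He K (n + 1) = X * He K n + C K * derivative (He K n) := rfl
    rw [h1, ih, derivative_add, derivative_mul, derivative_C_mul, derivative_C_mul, derivative_X,
      ih]
    rw [h2]
    push_cast
    simp only [map_add, map_one]
    ring

theorem Ode_He_two (K : ℝ) (m : ℕ) : He K (m + 2) = (X ^ 2 + C K) * He K m +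
    C (2 * K) * X * derivative (He K m) + C (K ^ 2) * derivative (derivative (He K m)) := by
  have h1 : He K (m + 2) = X * He K (m + 1) + C K * derivative (He K (m + 1)) := rfl
  have h2 : He K (m + 1) = X * He K m + C K * derivative (He K m) := rfl
  rw [h1, h2]
  simp only [derivative_add, derivative_mul, derivative_C, derivative_X, map_mul, map_pow,
    map_ofNat]
  ring

theorem Ode_coeff_dx (F : PowerSeries ℝ[X]) (n : ℕ) :
    PowerSeries.coeff n (dx F) = derivative (PowerSeries.coeff n F) := by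
  simp [dx]

theorem Ode_coeff_C_mul (p : ℝ[X]) (F : PowerSeries ℝ[X]) (n : ℕ) :
    PowerSeries.coeff n (PowerSeries.C p * F) = p * PowerSeries.coeff n F := by
  simp

theorem Ode_Aser (K : ℝ) : dx (Aser K) = PowerSeries.X *
    (PowerSeries.C (C 3 * (X ^ 2 + C K)) * Aser K +
     PowerSeries.C (C 3 * (C (2 * K) * X)) * dx (Aser K) +
     PowerSeries.C (C 3 * C (K ^ 2)) * dx (dx (Aser K))) := by
  ext n : 1
  rcases n with _ | n
  · rw [Ode_coeff_dx]
    simp [Aser, He]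
  · rw [PowerSeries.coeff_succ_X_mul, Ode_coeff_dx]
    simp only [map_add, Ode_coeff_C_mul, Ode_coeff_dx, Aser, PowerSeries.coeff_mk,
      derivative_C_mul]
    have h1 : 3 * (n + 1) = (3 * n + 2) + 1 := by ring
    rw [h1, He_ode, Ode_He_two]
    have h2 : (C (((n + 1).factorial : ℝ)⁻¹) : ℝ[X]) * C (((3 * n + 2 : ℕ) : ℝ) + 1) =
        C 3 * C ((n.factorial : ℝ)⁻¹) := by
      rw [← C_mul, ← C_mul]
      congr 1
      have := Nat.factorial_pos n
      rw [Nat.factorial_succ]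
      push_cast
      field_simp
      ring
    rw [← mul_assoc, h2]
    ring

theorem Ode_eq_of_dvd (F G : PowerSeries ℝ[X]) (h : ∀ M : ℕ, PowerSeries.X ^ M ∣ F - G) :
    F = G := by
  ext n : 1
  have h1 := PowerSeries.X_pow_dvd_iff.mp (h (n + 1)) n (Nat.lt_succ_self n)
  rw [map_sub, sub_eq_zero] at h1
  exact h1

theorem Ode_dx_dvd (F : PowerSeries ℝ[X]) (M : ℕ) (h : PowerSeries.X ^ M ∣ F) :
    PowerSeries.X ^ M ∣ dx F := by
  rw [PowerSeries.X_pow_dvd_iff] at h ⊢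
  intro m hm
  rw [Ode_coeff_dx, h m hm, derivative_zero]

theorem Ode_dx_C (p : ℝ[X]) : dx (PowerSeries.C p) = PowerSeries.C (derivative p) := by
  ext n : 1
  rw [Ode_coeff_dx, PowerSeries.coeff_C, PowerSeries.coeff_C]
  split_ifs
  · rfl
  · exact derivative_zero

theorem Ode_dx_X : dx (PowerSeries.X : PowerSeries ℝ[X]) = 0 := by
  ext n : 1
  rw [Ode_coeff_dx, PowerSeries.coeff_X, map_zero]
  split_ifs
  · exact derivative_one
  · exact derivative_zero

/-- `dx` as a derivation. -/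
noncomputable def OdeDer : Derivation ℝ (PowerSeries ℝ[X]) (PowerSeries ℝ[X]) :=
  Derivation.mk' dx (fun F G => by rw [dx_mul, smul_eq_mul, smul_eq_mul]; ring)

theorem Ode_dx_pow (F : PowerSeries ℝ[X]) (n : ℕ) (h : dx F = 0) : dx (F ^ n) = 0 := by
  have h1 : OdeDer (F ^ n) = _ := Derivation.leibniz_pow OdeDer F n
  have h2 : OdeDer F = 0 := h
  rw [h2] at h1
  have h3 : OdeDer (F ^ n) = dx (F ^ n) := rfl
  rw [← h3, h1]
  simp

theorem Ode_dx_hh (a : ℝ) : dx (hh a) = - YY a 1 := by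
  rw [YY_one, hh, map_sub, dx_mul, Ode_dx_C, Ode_dx_C, Ode_dx_X]
  simp only [derivative_neg, derivative_X, derivative_C_mul, derivative_X_pow]
  simp only [map_neg, map_one, map_mul, map_pow, map_ofNat]
  push_cast
  simp only [map_ofNat]
  ring

theorem Ode_dx_aeval (a : ℝ) (p : ℝ[X]) : dx (Polynomial.aeval (hh a) p) =
    - YY a 1 * Polynomial.aeval (hh a) (derivative p) := by
  have h1 := Derivation.map_aeval OdeDer p (hh a)
  have h2 : OdeDer (hh a) = - YY a 1 := Ode_dx_hh a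
  have h3 : OdeDer (Polynomial.aeval (hh a) p) = dx (Polynomial.aeval (hh a) p) := rfl
  rw [h3, h2, smul_eq_mul] at h1
  rw [h1]
  ring

theorem Ode_chain (a : ℝ) (F : PowerSeries ℝ[X]) :
    dx (Psi a F) = - YY a 1 * Psi a (dx F) := by
  apply Ode_eq_of_dvd
  intro M
  have h1 := DD_trunc (PowerSeries.X : PowerSeries ℝ[X]) dvd_rfl
    (PowerSeries.map (Polynomial.aeval (hh a)).toRingHom F) M
  have h2 := DD_trunc (PowerSeries.X : PowerSeries ℝ[X]) dvd_rfl
    (PowerSeries.map (Polynomial.aeval (hh a)).toRingHom (dx F)) M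
  have h3 := Ode_dx_dvd _ _ h1
  have h4 := (h2.mul_left (- YY a 1))
  have h5 : dx (∑ i ∈ range M, (PowerSeries.X : PowerSeries ℝ[X]) ^ i * PowerSeries.coeff i
      (PowerSeries.map (Polynomial.aeval (hh a)).toRingHom F)) =
      - YY a 1 * ∑ i ∈ range M, (PowerSeries.X : PowerSeries ℝ[X]) ^ i * PowerSeries.coeff i
      (PowerSeries.map (Polynomial.aeval (hh a)).toRingHom (dx F)) := by
    rw [map_sum, mul_sum]
    apply sum_congr rfl
    intro i _
    rw [dx_mul, Ode_dx_pow _ _ Ode_dx_X, PowerSeries.coeff_map, PowerSeries.coeff_map,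
      Ode_coeff_dx]
    have := Ode_dx_aeval a (PowerSeries.coeff i F)
    simp only [AlgHom.toRingHom_eq_coe, RingHom.coe_coe]
    rw [this]
    ring
  rw [map_sub, h5] at h3
  have h6 := dvd_sub h3 h4
  have h7 : dx (Psi a F) - - YY a 1 * Psi a (dx F) =
      (dx (DD PowerSeries.X (PowerSeries.map (Polynomial.aeval (hh a)).toRingHom F)) -
        -YY a 1 * ∑ i ∈ range M, (PowerSeries.X : PowerSeries ℝ[X]) ^ i * PowerSeries.coeff i
      (PowerSeries.map (Polynomial.aeval (hh a)).toRingHom (dx F))) -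
      -YY a 1 * (DD PowerSeries.X (PowerSeries.map (Polynomial.aeval (hh a)).toRingHom (dx F)) -
        ∑ i ∈ range M, (PowerSeries.X : PowerSeries ℝ[X]) ^ i * PowerSeries.coeff i
      (PowerSeries.map (Polynomial.aeval (hh a)).toRingHom (dx F))) := by
    rw [Psi, Psi]
    ring
  rw [h7]
  exact h6

/-- Uniqueness of the solution of the differential equation. -/
theorem Ode_uniq (d g1 g2 y P Q R : PowerSeries ℝ[X]) (hy : IsUnit y)
    (h1 : dx d = - y * g1) (h2 : dx g1 = - y * g2)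
    (h3 : g1 = PowerSeries.X * (P * d + Q * g1 + R * g2))
    (h0 : ∀ n, (PowerSeries.coeff n d).eval 0 = 0) : d = 0 := by
  have key : ∀ n : ℕ, PowerSeries.X ^ n ∣ d ∧ PowerSeries.X ^ n ∣ g1 ∧ PowerSeries.X ^ n ∣ g2 := by
    intro n
    induction n with
    | zero => simp
    | succ n ih =>
      obtain ⟨i1, i2, i3⟩ := ih
      have j2 : PowerSeries.X ^ (n + 1) ∣ g1 := by
        rw [h3, pow_succ']
        apply mul_dvd_mul_left
        exact dvd_add (dvd_add (i1.mul_left P) (i2.mul_left Q)) (i3.mul_left R)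
      have j1 : PowerSeries.X ^ (n + 1) ∣ d := by
        rw [PowerSeries.X_pow_dvd_iff]
        intro m hm
        have k1 : PowerSeries.X ^ (n + 1) ∣ dx d := by
          rw [h1]; exact j2.mul_left _
        have k2 := PowerSeries.X_pow_dvd_iff.mp k1 m hm
        rw [Ode_coeff_dx] at k2
        have k3 := Polynomial.derivative_eq_zero.mp k2
        have k4 := Polynomial.eq_C_of_natDegree_eq_zero k3
        have k5 := h0 m
        rw [k4, eval_C] at k5
        rw [k4, k5, C_0]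
      have j3 : PowerSeries.X ^ (n + 1) ∣ g2 := by
        have k1 : PowerSeries.X ^ (n + 1) ∣ dx g1 := Ode_dx_dvd _ _ j2
        rw [h2] at k1
        rw [neg_mul, dvd_neg] at k1
        exact (hy.dvd_mul_left).mp k1
      exact ⟨j1, j2, j3⟩
  apply Ode_eq_of_dvd
  intro M
  rw [sub_zero]
  exact (key M).1


/-- The derivation `- y⁻¹ d/dX`. -/
noncomputable def OdeD (a : ℝ) (F : PowerSeries ℝ[X]) : PowerSeries ℝ[X] :=
  - YY a (-1) * dx F

theorem Ode_yinv (a : ℝ) : YY a (-1) * YY a 1 = 1 := by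
  rw [← YY_add, neg_add_cancel, YY_zero]

theorem OdeD_mul (a : ℝ) (F G : PowerSeries ℝ[X]) :
    OdeD a (F * G) = OdeD a F * G + F * OdeD a G := by
  rw [OdeD, OdeD, OdeD, dx_mul]; ring

theorem OdeD_add (a : ℝ) (F G : PowerSeries ℝ[X]) :
    OdeD a (F + G) = OdeD a F + OdeD a G := by
  rw [OdeD, OdeD, OdeD, map_add]; ring

theorem OdeD_sub (a : ℝ) (F G : PowerSeries ℝ[X]) :
    OdeD a (F - G) = OdeD a F - OdeD a G := by
  rw [OdeD, OdeD, OdeD, map_sub]; ring

theorem OdeD_dvd (a : ℝ) (F : PowerSeries ℝ[X]) (M : ℕ) (h : PowerSeries.X ^ M ∣ F) :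
    PowerSeries.X ^ M ∣ OdeD a F := by
  rw [OdeD]
  exact (Ode_dx_dvd F M h).mul_left _

theorem OdeD_YY (a s : ℝ) : OdeD a (YY a s) =
    - PowerSeries.C (C (2 * a * s)) * PowerSeries.X * YY a (s - 2) := by
  have h : YY a (s - 2) = YY a (-1) * YY a (s - 1) := by
    rw [← YY_add]; congr 1; ring
  rw [OdeD, dx_YY, h]
  ring

/-- A constant times a power of `t` is killed. -/
theorem OdeD_const (a c : ℝ) (n : ℕ) :
    OdeD a (PowerSeries.C (C c) * PowerSeries.X ^ n) = 0 := by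
  rw [OdeD, dx_mul, Ode_dx_C, derivative_C, Ode_dx_pow _ _ Ode_dx_X]
  simp

theorem OdeD_term (a c s : ℝ) (n : ℕ) :
    OdeD a (PowerSeries.C (C c) * PowerSeries.X ^ n * YY a s) =
      PowerSeries.C (C (-(2 * a * s) * c)) * PowerSeries.X ^ (n + 1) * YY a (s - 2) := by
  rw [OdeD_mul, OdeD_const, OdeD_YY]
  simp only [map_mul, map_neg]
  ring

/-- The residual operator. -/
noncomputable def OdeL (K : ℝ) (F : PowerSeries ℝ[X]) : PowerSeries ℝ[X] :=
  YY (3 * K) 1 * OdeD (3 * K) F - PowerSeries.C (C (3 * K)) * PowerSeries.X *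
    (YY (3 * K) (-1) * F + PowerSeries.C (C K) * OdeD (3 * K) (OdeD (3 * K) F))

theorem OdeL_add (K : ℝ) (F G : PowerSeries ℝ[X]) : OdeL K (F + G) = OdeL K F + OdeL K G := by
  simp only [OdeL, OdeD_add]; ring

theorem OdeL_sub (K : ℝ) (F G : PowerSeries ℝ[X]) : OdeL K (F - G) = OdeL K F - OdeL K G := by
  simp only [OdeL, OdeD_sub]; ring

theorem OdeL_zero (K : ℝ) : OdeL K 0 = 0 := by
  simp [OdeL, OdeD]

theorem OdeL_dvd (K : ℝ) (F : PowerSeries ℝ[X]) (M : ℕ) (h : PowerSeries.X ^ M ∣ F) :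
    PowerSeries.X ^ M ∣ OdeL K F := by
  rw [OdeL]
  have h1 := OdeD_dvd (3 * K) F M h
  have h2 := OdeD_dvd (3 * K) _ M h1
  exact dvd_sub (h1.mul_left _) ((dvd_add (h.mul_left _) (h2.mul_left _)).mul_left _)

/-- The telescoping terms. -/
noncomputable def OdeU (K : ℝ) (n : ℕ) : PowerSeries ℝ[X] :=
  PowerSeries.C (C (6 * n * (K ^ (3 * n) * aa n) * (3 * K))) * PowerSeries.X ^ (2 * n + 1) *
    YY (3 * K) (-3 * n - 3 / 2)

theorem Ode_aa (n : ℕ) : 2 * ((n : ℝ) + 1) * aa (n + 1) = 3 * (6 * n + 1) * (6 * n + 5) * aa n := by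
  have h1 : 6 * (n + 1) - 1 = (6 * n + 3) + 2 := by omega
  have h2 : ((6 * n + 3 + 2).doubleFactorial : ℝ) =
      (6 * n + 5) * ((6 * n + 3) * ((6 * n + 1).doubleFactorial : ℝ)) := by
    rw [Nat.doubleFactorial_add_two]
    have : 6 * n + 3 = (6 * n + 1) + 2 := by ring
    rw [this, Nat.doubleFactorial_add_two]
    push_cast
    ring
  have h3 : ((6 * n + 1).doubleFactorial : ℝ) = (6 * n + 1) * ((6 * n - 1).doubleFactorial : ℝ) := by
    rcases n with _ | n
    · norm_num [Nat.doubleFactorial]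
    · have e : 6 * (n + 1) + 1 = (6 * (n + 1) - 1) + 2 := by omega
      rw [e, Nat.doubleFactorial_add_two]
      have e2 : 6 * (n + 1) - 1 + 2 = 6 * (n + 1) + 1 := by omega
      rw [e2]
      push_cast
      ring
  have h4 : ((2 * (n + 1)).factorial : ℝ) = (2 * n + 2) * ((2 * n + 1) * ((2 * n).factorial : ℝ)) := by
    have : 2 * (n + 1) = (2 * n + 1) + 1 := by ring
    rw [this, Nat.factorial_succ, Nat.factorial_succ]
    push_cast
    ring
  have h5 : ((2 * n).factorial : ℝ) ≠ 0 := by positivity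
  rw [aa, aa, h1, h2, h3, h4]
  field_simp
  ring

theorem OdeL_term (K : ℝ) (n : ℕ) : OdeL K (PowerSeries.C (C (K ^ (3 * n) * aa n)) *
    PowerSeries.X ^ (2 * n) * YY (3 * K) (-3 * n - 1 / 2)) = OdeU K n - OdeU K (n + 1) := by
  rw [OdeL, OdeD_term, OdeD_term, OdeU, OdeU]
  have y1 : YY (3 * K) (-3 * n - 3 / 2) = YY (3 * K) 1 * YY (3 * K) (-3 * n - 1 / 2 - 2) := by
    rw [← YY_add]; congr 1; ring
  have y2 : YY (3 * K) (-3 * n - 3 / 2) = YY (3 * K) (-1) * YY (3 * K) (-3 * n - 1 / 2) := by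
    rw [← YY_add]; congr 1; ring
  have y3 : YY (3 * K) (-3 * ((n + 1 : ℕ) : ℝ) - 3 / 2) =
      YY (3 * K) (-3 * n - 1 / 2 - 2 - 2) := by
    congr 1; push_cast; ring
  have c1 : (C (6 * ((n + 1 : ℕ) : ℝ) * (K ^ (3 * (n + 1)) * aa (n + 1)) * (3 * K)) : ℝ[X]) =
      C (3 * K * (K * (-(2 * (3 * K) * (-3 * n - 1 / 2 - 2)) *
        (-(2 * (3 * K) * (-3 * n - 1 / 2)) * (K ^ (3 * n) * aa n))))) := by
    congr 1
    have := Ode_aa n
    push_cast
    linear_combination (9 * K ^ (3 * n + 4)) * this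
  rw [y3, c1]
  have e1 : PowerSeries.X ^ (2 * (n + 1) + 1) =
      (PowerSeries.X : PowerSeries ℝ[X]) * PowerSeries.X ^ (2 * n + 1 + 1) := by ring
  rw [e1]
  have c2 : (C (6 * (n : ℝ) * (K ^ (3 * n) * aa n) * (3 * K)) : ℝ[X]) =
      C (-(2 * (3 * K) * (-3 * n - 1 / 2)) * (K ^ (3 * n) * aa n)) -
        C (3 * K * (K ^ (3 * n) * aa n)) := by
    rw [← C_sub]; congr 1; ring
  rw [c2, map_sub, sub_mul, sub_mul]
  nth_rewrite 1 [y1]
  rw [y2]
  simp only [map_mul]
  ring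

theorem Ode_YY_pow (a s : ℝ) (n : ℕ) : YY a s ^ n = YY a (s * n) := by
  induction n with
  | zero => rw [pow_zero, Nat.cast_zero, mul_zero, YY_zero]
  | succ n ih => rw [pow_succ, ih, ← YY_add]; congr 1; push_cast; ring

theorem Ode_G (K : ℝ) : OdeL K (YY (3 * K) (-(1 / 2)) * Theta (3 * K) (Cser K)) = 0 := by
  apply Ode_eq_of_dvd
  intro M
  rw [sub_zero]
  have hz : (PowerSeries.X : PowerSeries ℝ[X]) ∣ PowerSeries.X ^ 2 * YY (3 * K) (-3) :=
    Dvd.dvd.mul_right (dvd_pow_self _ two_ne_zero) _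
  have h1 := DD_trunc _ hz (PowerSeries.map (algebraMap ℝ (PowerSeries ℝ[X])) (Cser K)) M
  have h2 := h1.mul_left (YY (3 * K) (-(1 / 2)))
  have h3 : YY (3 * K) (-(1 / 2)) * (DD (PowerSeries.X ^ 2 * YY (3 * K) (-3))
      (PowerSeries.map (algebraMap ℝ (PowerSeries ℝ[X])) (Cser K)) -
      ∑ i ∈ range M, (PowerSeries.X ^ 2 * YY (3 * K) (-3)) ^ i * PowerSeries.coeff i
        (PowerSeries.map (algebraMap ℝ (PowerSeries ℝ[X])) (Cser K))) =
      YY (3 * K) (-(1 / 2)) * Theta (3 * K) (Cser K) -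
      ∑ i ∈ range M, PowerSeries.C (C (K ^ (3 * i) * aa i)) *
        PowerSeries.X ^ (2 * i) * YY (3 * K) (-3 * i - 1 / 2) := by
    rw [mul_sub, mul_sum, Theta]
    refine congrArg (fun w => _ - w) (sum_congr rfl ?_)
    intro i _
    have e1 : YY (3 * K) (-3 * i - 1 / 2) = YY (3 * K) (-(1 / 2)) * YY (3 * K) (-3) ^ i := by
      rw [Ode_YY_pow, ← YY_add]
      exact congrArg (YY (3 * K)) (by ring)
    have e2 : PowerSeries.coeff i (PowerSeries.map (algebraMap ℝ (PowerSeries ℝ[X])) (Cser K)) =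
        PowerSeries.C (C (K ^ (3 * i) * aa i)) := by
      rw [PowerSeries.coeff_map, Cser, PowerSeries.coeff_mk, Ode_algMap]
    rw [e1, e2]
    ring
  rw [h3] at h2
  have h4 := OdeL_dvd K _ M h2
  rw [OdeL_sub] at h4
  have h5 : OdeL K (∑ i ∈ range M, PowerSeries.C (C (K ^ (3 * i) * aa i)) *
        PowerSeries.X ^ (2 * i) * YY (3 * K) (-3 * i - 1 / 2)) = - OdeU K M := by
    have e1 : OdeL K (∑ i ∈ range M, PowerSeries.C (C (K ^ (3 * i) * aa i)) *
        PowerSeries.X ^ (2 * i) * YY (3 * K) (-3 * i - 1 / 2)) =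
        ∑ i ∈ range M, (OdeU K i - OdeU K (i + 1)) := by
      clear h1 h2 h3 h4
      induction M with
      | zero => rw [sum_range_zero, sum_range_zero, OdeL_zero]
      | succ M ih => rw [sum_range_succ, sum_range_succ, OdeL_add, ih, OdeL_term]
    rw [e1, sum_range_sub']
    have e2 : OdeU K 0 = 0 := by
      rw [OdeU]
      simp
    rw [e2, zero_sub]
  rw [h5] at h4
  have h6 : PowerSeries.X ^ M ∣ OdeU K M := by
    rw [OdeU]
    refine Dvd.dvd.mul_right (Dvd.dvd.mul_left ?_ _) _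
    exact pow_dvd_pow _ (by omega)
  have h7 := dvd_sub h4 h6
  have h8 : OdeL K (YY (3 * K) (-(1 / 2)) * Theta (3 * K) (Cser K)) - - OdeU K M - OdeU K M =
      OdeL K (YY (3 * K) (-(1 / 2)) * Theta (3 * K) (Cser K)) := by ring
  rw [h8] at h7
  exact h7

/-! ### Values at zero -/

/-- Evaluation of the coefficients at zero. -/
noncomputable def OdeEv : PowerSeries ℝ[X] →+* PowerSeries ℝ :=
  PowerSeries.map (evalRingHom 0)

theorem OdeEv_coeff (F : PowerSeries ℝ[X]) (n : ℕ) :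
    (PowerSeries.coeff n F).eval 0 = PowerSeries.coeff n (OdeEv F) := by
  rw [OdeEv, PowerSeries.coeff_map]; rfl

theorem OdeEv_C (p : ℝ[X]) : OdeEv (PowerSeries.C p) = PowerSeries.C (p.eval 0) := by
  rw [OdeEv, PowerSeries.map_C]; rfl

theorem OdeEv_X : OdeEv PowerSeries.X = PowerSeries.X := by
  rw [OdeEv, PowerSeries.map_X]

theorem OdeEv_YY (a s : ℝ) : OdeEv (YY a s) = 1 := by
  ext n
  rw [← OdeEv_coeff, coeff_YY, PowerSeries.coeff_one]
  rcases n with _ | n <;> simp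

theorem OdeEv_E1 (p : ℝ[X]) (hp : p.eval 0 = 0) : OdeEv (E1 p) = 1 := by
  ext n
  rw [← OdeEv_coeff, E1, PowerSeries.coeff_mk, PowerSeries.coeff_one]
  rcases n with _ | n <;> simp [hp]

theorem OdeEv_E2 (p : ℝ[X]) (hp : p.eval 0 = 0) : OdeEv (E2 p) = 1 := by
  ext n
  rw [← OdeEv_coeff, E2, PowerSeries.coeff_mk, PowerSeries.coeff_one]
  rcases Nat.even_or_odd n with h | h
  · obtain ⟨m, rfl⟩ := h
    rw [if_pos (Even.add_self m)]
    have : (m + m) / 2 = m := by omega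
    rw [this]
    rcases m with _ | m
    · simp
    · simp [hp]
  · rw [if_neg (Nat.not_even_iff_odd.mpr h), eval_zero, if_neg]
    rintro rfl
    simp at h

theorem OdeEv_Theta (a : ℝ) (P : PowerSeries ℝ) (n : ℕ) :
    PowerSeries.coeff n (OdeEv (Theta a P)) =
      if Even n then PowerSeries.coeff (n / 2) P else 0 := by
  rw [← OdeEv_coeff, Theta, DD, PowerSeries.coeff_mk, eval_finsetSum]
  have h1 : ∀ i ∈ range (n + 1), (PowerSeries.coeff n ((PowerSeries.X ^ 2 * YY a (-3)) ^ i *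
      PowerSeries.coeff i (PowerSeries.map (algebraMap ℝ (PowerSeries ℝ[X])) P))).eval 0 =
      if n = 2 * i then PowerSeries.coeff i P else 0 := by
    intro i _
    have e2 : PowerSeries.coeff i (PowerSeries.map (algebraMap ℝ (PowerSeries ℝ[X])) P) =
        PowerSeries.C (C (PowerSeries.coeff i P)) := by
      rw [PowerSeries.coeff_map, Ode_algMap]
    rw [OdeEv_coeff, e2, map_mul OdeEv, map_pow OdeEv, map_mul OdeEv, map_pow OdeEv, OdeEv_X,
      OdeEv_YY, OdeEv_C, eval_C, mul_one, ← pow_mul, mul_comm, PowerSeries.coeff_C_mul,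
      PowerSeries.coeff_X_pow]
    split_ifs <;> simp
  rw [sum_congr rfl h1]
  rcases Nat.even_or_odd n with h | h
  · obtain ⟨m, rfl⟩ := h
    rw [if_pos (Even.add_self m)]
    have : (m + m) / 2 = m := by omega
    rw [this, sum_eq_single m]
    · rw [if_pos (by ring)]
    · intro b _ hb
      rw [if_neg (by omega)]
    · intro hm
      rw [mem_range] at hm
      omega
  · rw [if_neg (Nat.not_even_iff_odd.mpr h)]
    apply sum_eq_zero
    intro i _
    rw [if_neg]
    rintro rfl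
    exact (Nat.not_odd_iff_even.mpr (even_two_mul i)) h

theorem OdeEv_Psi (a : ℝ) (F : PowerSeries ℝ[X]) (n : ℕ) :
    PowerSeries.coeff n (OdeEv (Psi a F)) = (PowerSeries.coeff n F).eval 0 := by
  rw [← OdeEv_coeff, Psi, DD, PowerSeries.coeff_mk, eval_finsetSum]
  have hh0 : OdeEv (hh a) = 0 := by
    rw [hh, map_sub, map_mul, OdeEv_C, OdeEv_C, OdeEv_X]
    simp
  have h1 : ∀ i ∈ range (n + 1), (PowerSeries.coeff n (PowerSeries.X ^ i *
      PowerSeries.coeff i (PowerSeries.map (Polynomial.aeval (hh a)).toRingHom F))).eval 0 =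
      if n = i then (PowerSeries.coeff i F).eval 0 else 0 := by
    intro i _
    have e2 : OdeEv (Polynomial.aeval (hh a) (PowerSeries.coeff i F)) =
        PowerSeries.C ((PowerSeries.coeff i F).eval 0) := by
      generalize PowerSeries.coeff i F = p
      rw [Polynomial.aeval_def, Polynomial.hom_eval₂, hh0, Polynomial.eval₂_at_zero,
        RingHom.comp_apply]
      rw [Ode_algMap, OdeEv_C, eval_C, Polynomial.coeff_zero_eq_eval_zero]
    rw [OdeEv_coeff, map_mul OdeEv, map_pow OdeEv, OdeEv_X, PowerSeries.coeff_map]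
    simp only [AlgHom.toRingHom_eq_coe, RingHom.coe_coe]
    rw [e2, mul_comm, PowerSeries.coeff_C_mul, PowerSeries.coeff_X_pow]
    split_ifs <;> simp
  rw [sum_congr rfl h1, sum_ite_eq, if_pos (self_mem_range_succ n)]

theorem Ode_He_eval (K : ℝ) (m : ℕ) :
    (He K (m + 2)).eval 0 = K * (m + 1) * (He K m).eval 0 := by
  have h1 : He K (m + 2) = X * He K (m + 1) + C K * derivative (He K (m + 1)) := rfl
  rw [h1, He_ode]
  simp
  ring

theorem Ode_He_even (K : ℝ) (j : ℕ) :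
    (He K (2 * j)).eval 0 = K ^ j * ((2 * j - 1).doubleFactorial : ℝ) := by
  induction j with
  | zero => simp [He]
  | succ j ih =>
    have e : 2 * (j + 1) = 2 * j + 2 := by ring
    rw [e, Ode_He_eval, ih]
    rcases j with _ | j
    · norm_num [Nat.doubleFactorial]
    · have e2 : 2 * (j + 1) + 2 - 1 = (2 * (j + 1) - 1) + 2 := by omega
      rw [e2, Nat.doubleFactorial_add_two]
      have e3 : 2 * (j + 1) - 1 + 2 = 2 * (j + 1) + 1 := by omega
      rw [e3]
      push_cast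
      ring

theorem Ode_He_odd (K : ℝ) (j : ℕ) : (He K (2 * j + 1)).eval 0 = 0 := by
  induction j with
  | zero => simp [He]
  | succ j ih =>
    have e : 2 * (j + 1) + 1 = (2 * j + 1) + 2 := by ring
    rw [e, Ode_He_eval, ih, mul_zero]

/-! ### The closed form -/

/-- The coefficients of the equation. -/
noncomputable def OdeP (K : ℝ) : PowerSeries ℝ[X] :=
  PowerSeries.C (C 3) * (hh (3 * K) ^ 2 + PowerSeries.C (C K))

/-- The coefficients of the equation. -/
noncomputable def OdeQ (K : ℝ) : PowerSeries ℝ[X] :=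
  PowerSeries.C (C 3) * (PowerSeries.C (C (2 * K)) * hh (3 * K))

/-- The coefficients of the equation. -/
noncomputable def OdeR (K : ℝ) : PowerSeries ℝ[X] :=
  PowerSeries.C (C 3) * PowerSeries.C (C (K ^ 2))

theorem Ode_left (K : ℝ) : Psi (3 * K) (dx (Aser K)) = PowerSeries.X *
    (OdeP K * Psi (3 * K) (Aser K) + OdeQ K * Psi (3 * K) (dx (Aser K)) +
      OdeR K * Psi (3 * K) (dx (dx (Aser K)))) := by
  have h1 := congrArg (Psi (3 * K)) (Ode_Aser K)
  rw [Psi_mul, Psi_X, Psi_add, Psi_add, Psi_mul, Psi_mul, Psi_mul, Psi_C, Psi_C, Psi_C] at h1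
  have eP : Polynomial.aeval (hh (3 * K)) (C 3 * (X ^ 2 + C K) : ℝ[X]) = OdeP K := by
    rw [map_mul, map_add, map_pow, aeval_X, aeval_C, aeval_C, OdeP, Ode_algMap, Ode_algMap]
  have eQ : Polynomial.aeval (hh (3 * K)) (C 3 * (C (2 * K) * X) : ℝ[X]) = OdeQ K := by
    rw [map_mul, map_mul, aeval_X, aeval_C, aeval_C, OdeQ, Ode_algMap, Ode_algMap]
  have eR : Polynomial.aeval (hh (3 * K)) (C 3 * C (K ^ 2) : ℝ[X]) = OdeR K := by
    rw [map_mul, aeval_C, aeval_C, OdeR, Ode_algMap, Ode_algMap]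
  rw [eP, eQ, eR] at h1
  exact h1

/-- The exponential factor. -/
noncomputable def OdeE (K : ℝ) : PowerSeries ℝ[X] :=
  E1 (-X ^ 3) * E2 (C (-(9 * K / 2)) * X ^ 4)

theorem Ode_DE (K : ℝ) : OdeD (3 * K) (OdeE K) =
    PowerSeries.C (C 3 * X ^ 2) * PowerSeries.X * OdeE K := by
  have hy : YY (3 * K) 1 = 1 + PowerSeries.C (C (2 * (3 * K)) * X) * PowerSeries.X := YY_one _
  have d1 : derivative (-X ^ 3 : ℝ[X]) = - (C 3 * X ^ 2) := by
    rw [derivative_neg, derivative_X_pow]; simp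
  have d2 : derivative (C (-(9 * K / 2)) * X ^ 4 : ℝ[X]) =
      - (C 3 * X ^ 2 * (C (2 * (3 * K)) * X)) := by
    rw [derivative_C_mul, derivative_X_pow]
    have e1 : (C (-(9 * K / 2)) : ℝ[X]) * (C ((4 : ℕ) : ℝ) * X ^ (4 - 1)) =
        C (-(9 * K / 2) * 4) * X ^ 3 := by
      rw [C_mul]; push_cast; ring
    have e2 : (C 3 * X ^ 2 * (C (2 * (3 * K)) * X) : ℝ[X]) = C (3 * (2 * (3 * K))) * X ^ 3 := by
      have : (C (3 * (2 * (3 * K))) : ℝ[X]) = C 3 * C (2 * (3 * K)) := C_mul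
      rw [this]; ring
    rw [e1, e2, ← neg_mul, ← C_neg]
    congr 2
    ring
  have h1 : dx (OdeE K) = - (PowerSeries.C (C 3 * X ^ 2) * PowerSeries.X * YY (3 * K) 1 *
      OdeE K) := by
    rw [OdeE, dx_mul, dx_E1, dx_E2, hy, d1, d2]
    generalize E1 (-X ^ 3) = u
    generalize E2 (C (-(9 * K / 2)) * X ^ 4) = v
    rw [map_neg, map_neg, map_mul PowerSeries.C (C 3 * X ^ 2)]
    ring
  rw [OdeD, h1]
  have := Ode_yinv (3 * K)
  linear_combination (PowerSeries.C (C 3 * X ^ 2) * PowerSeries.X * OdeE K) * this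

theorem Ode_DX (a : ℝ) : OdeD a (PowerSeries.C (C 3 * X ^ 2) * PowerSeries.X) =
      - YY a (-1) * (PowerSeries.C (C 6 * X) * PowerSeries.X) := by
  rw [OdeD, dx_mul, Ode_dx_C, Ode_dx_X]
  have d1 : derivative (C 3 * X ^ 2 : ℝ[X]) = C 6 * X := by
    rw [derivative_C_mul, derivative_X_pow]
    have : (C 6 : ℝ[X]) = C 3 * C 2 := by rw [← C_mul]; norm_num
    rw [this]
    simp
    ring
  rw [d1]
  ring

theorem Ode_alg (x k t E G G1 G2 y yi : PowerSeries ℝ[X]) (r1 : yi * y = 1)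
    (r2 : y = 1 + 6 * k * x * t) (hL : y * G1 = 3 * k * t * (yi * G + k * G2)) :
    E * (3 * x ^ 2 * t * G + G1) = t * (3 * ((-x - 3 * k * x ^ 2 * t) ^ 2 + k) * (E * G) +
      3 * (2 * k * (-x - 3 * k * x ^ 2 * t)) * (E * (3 * x ^ 2 * t * G + G1)) +
      3 * k ^ 2 * (E * (3 * x ^ 2 * t * (3 * x ^ 2 * t * G + G1) +
        (-yi * (6 * x * t) * G + 3 * x ^ 2 * t * G1 + G2)))) := by
  linear_combination E * hL + 3 * t * k * G * E * r1 - (E * G1 + 3 * t * k * yi * G * E) * r2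

theorem Ode_right (K : ℝ) (G : PowerSeries ℝ[X]) (hG : OdeL K G = 0) :
    OdeD (3 * K) (OdeE K * G) = PowerSeries.X *
    (OdeP K * (OdeE K * G) + OdeQ K * OdeD (3 * K) (OdeE K * G) +
      OdeR K * OdeD (3 * K) (OdeD (3 * K) (OdeE K * G))) := by
  have hL : YY (3 * K) 1 * OdeD (3 * K) G = PowerSeries.C (C (3 * K)) * PowerSeries.X *
      (YY (3 * K) (-1) * G + PowerSeries.C (C K) * OdeD (3 * K) (OdeD (3 * K) G)) := by
    rw [OdeL] at hG
    exact sub_eq_zero.mp hG
  have hD1 : OdeD (3 * K) (OdeE K * G) =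
      OdeE K * (PowerSeries.C (C 3 * X ^ 2) * PowerSeries.X * G + OdeD (3 * K) G) := by
    rw [OdeD_mul, Ode_DE]; ring
  have hD2 : OdeD (3 * K) (OdeD (3 * K) (OdeE K * G)) =
      OdeE K * (PowerSeries.C (C 3 * X ^ 2) * PowerSeries.X *
      (PowerSeries.C (C 3 * X ^ 2) * PowerSeries.X * G + OdeD (3 * K) G) +
      (- YY (3 * K) (-1) * (PowerSeries.C (C 6 * X) * PowerSeries.X) * G +
        PowerSeries.C (C 3 * X ^ 2) * PowerSeries.X * OdeD (3 * K) G +
        OdeD (3 * K) (OdeD (3 * K) G))) := by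
    rw [hD1, OdeD_mul, Ode_DE, OdeD_add, OdeD_mul, Ode_DX]; ring
  rw [hD2, hD1, OdeP, OdeQ, OdeR]
  have r1 := Ode_yinv (3 * K)
  have r2 : YY (3 * K) 1 = 1 + PowerSeries.C (C (2 * (3 * K)) * X) * PowerSeries.X := YY_one _
  have r3 : hh (3 * K) = PowerSeries.C (-X) - PowerSeries.C (C (3 * K) * X ^ 2) *
    PowerSeries.X := rfl
  rw [r3]
  have n3 : (PowerSeries.C (C (3 : ℝ)) : PowerSeries ℝ[X]) = 3 := by
    rw [show (C (3 : ℝ) : ℝ[X]) = 3 from map_ofNat C 3]; exact map_ofNat PowerSeries.C 3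
  have n2 : (PowerSeries.C (C (2 : ℝ)) : PowerSeries ℝ[X]) = 2 := by
    rw [show (C (2 : ℝ) : ℝ[X]) = 2 from map_ofNat C 2]; exact map_ofNat PowerSeries.C 2
  have n6 : (PowerSeries.C (C (6 : ℝ)) : PowerSeries ℝ[X]) = 6 := by
    rw [show (C (6 : ℝ) : ℝ[X]) = 6 from map_ofNat C 6]; exact map_ofNat PowerSeries.C 6
  have a1 : (PowerSeries.C (C (3 * K)) : PowerSeries ℝ[X]) = 3 * PowerSeries.C (C K) := by
    rw [C_mul, map_mul, n3]
  have a2 : (PowerSeries.C (C (2 * (3 * K)) * X) : PowerSeries ℝ[X]) =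
      6 * PowerSeries.C (C K) * PowerSeries.C X := by
    rw [C_mul, C_mul, map_mul, map_mul, map_mul, n2, n3]; ring
  have a3 : (PowerSeries.C (C 3 * X ^ 2) : PowerSeries ℝ[X]) = 3 * PowerSeries.C X ^ 2 := by
    rw [map_mul, map_pow, n3]
  have a4 : (PowerSeries.C (C 6 * X) : PowerSeries ℝ[X]) = 6 * PowerSeries.C X := by
    rw [map_mul, n6]
  have a5 : (PowerSeries.C (C (3 * K) * X ^ 2) : PowerSeries ℝ[X]) =
      3 * PowerSeries.C (C K) * PowerSeries.C X ^ 2 := by
    rw [map_mul, map_pow, a1]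
  have a6 : (PowerSeries.C (C (2 * K)) : PowerSeries ℝ[X]) = 2 * PowerSeries.C (C K) := by
    rw [C_mul, map_mul, n2]
  have a7 : (PowerSeries.C (C (K ^ 2)) : PowerSeries ℝ[X]) = PowerSeries.C (C K) ^ 2 := by
    rw [C_pow, map_pow]
  have a8 : (PowerSeries.C (-X) : PowerSeries ℝ[X]) = - PowerSeries.C X := by
    rw [map_neg]
  rw [a2] at r2
  rw [a1] at hL
  rw [a3, a4, a5, a6, a7, a8, n3]
  have key := Ode_alg (PowerSeries.C X) (PowerSeries.C (C K)) PowerSeries.X (OdeE K) G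
    (OdeD (3 * K) G) (OdeD (3 * K) (OdeD (3 * K) G)) (YY (3 * K) 1) (YY (3 * K) (-1)) r1
    (by rw [r2]) hL
  refine key.trans ?_
  ring

theorem psi_Aser (K : ℝ) (hK : K ≠ 0) : Psi (3 * K) (Aser K) =
    E1 (-X ^ 3) * E2 (C (-(9 * K / 2)) * X ^ 4) * YY (3 * K) (-(1 / 2)) *
      Theta (3 * K) (Cser K) := by
  have _ := hK
  have goal1 : E1 (-X ^ 3) * E2 (C (-(9 * K / 2)) * X ^ 4) * YY (3 * K) (-(1 / 2)) *
      Theta (3 * K) (Cser K) = OdeE K * (YY (3 * K) (-(1 / 2)) * Theta (3 * K) (Cser K)) := by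
    rw [OdeE]; ring
  rw [goal1]
  have hG := Ode_G K
  have hr := Ode_right K _ hG
  have hl := Ode_left K
  set F2 : PowerSeries ℝ[X] := OdeE K * (YY (3 * K) (-(1 / 2)) * Theta (3 * K) (Cser K)) with hF2
  have hy : IsUnit (YY (3 * K) 1) := IsUnit.of_mul_eq_one _ (by rw [mul_comm]; exact Ode_yinv _)
  have hdF : ∀ F : PowerSeries ℝ[X], dx F = - YY (3 * K) 1 * OdeD (3 * K) F := by
    intro F
    rw [OdeD]
    have := Ode_yinv (3 * K)
    linear_combination (- dx F) * this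
  have hfin := Ode_uniq (Psi (3 * K) (Aser K) - F2)
    (Psi (3 * K) (dx (Aser K)) - OdeD (3 * K) F2)
    (Psi (3 * K) (dx (dx (Aser K))) - OdeD (3 * K) (OdeD (3 * K) F2))
    (YY (3 * K) 1) (OdeP K) (OdeQ K) (OdeR K) hy
    (by rw [map_sub, Ode_chain, hdF F2]; ring)
    (by rw [map_sub, Ode_chain, hdF (OdeD (3 * K) F2)]; ring)
    (by linear_combination hl - hr)
    (by
      intro n
      rw [OdeEv_coeff, map_sub OdeEv, map_sub, OdeEv_Psi, hF2, map_mul OdeEv, map_mul OdeEv,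
        OdeEv_YY, OdeE, map_mul OdeEv, OdeEv_E1 _ (by simp), OdeEv_E2 _ (by simp), mul_one,
        one_mul, one_mul, OdeEv_Theta, Aser, PowerSeries.coeff_mk, eval_mul, eval_C]
      rcases Nat.even_or_odd n with h | h
      · obtain ⟨m, rfl⟩ := h
        rw [if_pos (Even.add_self m)]
        have e1 : (m + m) / 2 = m := by omega
        have e2 : 3 * (m + m) = 2 * (3 * m) := by ring
        rw [e1, e2, Ode_He_even, Cser, PowerSeries.coeff_mk, aa]
        have e3 : 2 * (3 * m) = 6 * m := by ring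
        have e4 : m + m = 2 * m := by ring
        rw [e3, e4]
        ring
      · rw [if_neg (Nat.not_even_iff_odd.mpr h)]
        obtain ⟨m, rfl⟩ := h
        have e2 : 3 * (2 * m + 1) = 2 * (3 * m + 1) + 1 := by ring
        rw [e2, Ode_He_odd]
        ring)
  exact sub_eq_zero.mp hfin

end Pool.Agent.H69Cubic
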