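import Pool.Agent.H69Cubic.Series
import Pool.Agent.H69Cubic.Change
import Pool.Agent.H69Cubic.Ode

/-!
# Coefficient extraction
-/

set_option autoImplicit false

namespace Pool.Agent.H69Cubic

open Finset Polynomial

private theorem coeff_E1_pow (p : ℝ[X]) (k : ℕ) : E1 p ^ k = E1 (C (k : ℝ) * p) := by
  induction k with
  | zero => simp [E1_zero]
  | succ k ih =>
    rw [pow_succ, ih, ← E1_add]
    congr 1
    push_cast
    rw [C_add, C_1]
    ring

private theorem coeff_E2_pow (p : ℝ[X]) (k : ℕ) : E2 p ^ k = E2 (C (k : ℝ) * p) := by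
  induction k with
  | zero => simp [E2_zero]
  | succ k ih =>
    rw [pow_succ, ih, ← E2_add]
    congr 1
    push_cast
    rw [C_add, C_1]
    ring

private theorem coeff_YY_pow (a s : ℝ) (k : ℕ) : YY a s ^ k = YY a (k * s) := by
  induction k with
  | zero => simp [YY_zero]
  | succ k ih =>
    rw [pow_succ, ih, ← YY_add]
    congr 1
    push_cast
    ring

private theorem coeff_Lam_monomial (c : ℝ) (n : ℕ) : Lam (C c * X ^ n) = c * mom n := by
  rw [Lam, C_mul_X_pow_eq_monomial, Polynomial.lsum_apply, Polynomial.sum_monomial_index]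
  · simp [mul_comm]
  · simp

private theorem coeff_Lam_C_mul (c : ℝ) (p : ℝ[X]) : Lam (C c * p) = c * Lam p := by
  rw [← smul_eq_C_mul, map_smul, smul_eq_mul]

private theorem coeff_mom_even (n : ℕ) :
    mom (2 * n) = (-1) ^ n * ((2 * n - 1).doubleFactorial : ℝ) := by
  rw [mom, if_pos (even_two_mul n)]
  congr 2
  omega

/-- the basic extraction -/
private theorem coeff_basic (K μ : ℝ) (M : ℕ) :
    Lam (PowerSeries.coeff (2 * M) (E1 (C (2 * K) * X ^ 3) * YY (3 * K) μ)) =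
      (3 * K) ^ (2 * M) * mm M μ := by
  rw [PowerSeries.coeff_mul, Finset.Nat.sum_antidiagonal_eq_sum_range_succ_mk, map_sum, mm,
    Finset.mul_sum]
  apply Finset.sum_congr rfl
  intro i hi
  have hi' : i ≤ 2 * M := by
    have := Finset.mem_range.1 hi
    omega
  simp only
  rw [coeff_YY, E1, PowerSeries.coeff_mk, mul_pow, ← C_pow, ← pow_mul]
  have h1 : C ((i.factorial : ℝ)⁻¹) * (C ((2 * K) ^ i) * X ^ (3 * i)) *
      (C (Ring.choose μ (2 * M - i) * (2 * (3 * K)) ^ (2 * M - i)) * X ^ (2 * M - i)) =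
      C ((i.factorial : ℝ)⁻¹ * (2 * K) ^ i *
        (Ring.choose μ (2 * M - i) * (2 * (3 * K)) ^ (2 * M - i))) * X ^ (2 * (i + M)) := by
    have : 2 * (i + M) = 3 * i + (2 * M - i) := by omega
    rw [this, pow_add]
    simp only [C_mul]
    ring
  rw [h1, coeff_Lam_monomial, coeff_mom_even]
  obtain ⟨r, hr⟩ := Nat.exists_eq_add_of_le hi'
  have hr2 : 2 * M - i = r := by omega
  rw [hr2, hr]
  have h2 : (3 * K) ^ (i + r) = 3 ^ i * K ^ i * (3 ^ r * K ^ r) := by
    rw [pow_add, mul_pow, mul_pow]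
  have h3 : (2 / 3 : ℝ) ^ i = 2 ^ i / 3 ^ i := div_pow _ _ _
  rw [h2, h3, mul_pow, mul_pow, mul_pow]
  have h4 : (3 : ℝ) ^ i ≠ 0 := by positivity
  field_simp

private theorem coeff_Cser (K : ℝ) (k j : ℕ) :
    PowerSeries.coeff j (Cser K ^ k) = K ^ (3 * j) * PowerSeries.coeff j (Eser ^ k) := by
  have h : Cser K = PowerSeries.rescale (K ^ 3) Eser := by
    ext n
    rw [PowerSeries.coeff_rescale, Cser, Eser, PowerSeries.coeff_mk, PowerSeries.coeff_mk, pow_mul]
  rw [h, ← map_pow, PowerSeries.coeff_rescale, ← pow_mul]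

private theorem coeff_prod (K : ℝ) (hK : K ≠ 0) (k : ℕ) (hk : (k : ℝ) = K) :
    Psi (3 * K) (Aser K ^ k) * YY (3 * K) 1 * E1 (C (3 * K) * X ^ 3) *
      E2 (C ((3 * K) ^ 2 / 2) * X ^ 4) =
    E1 (C (2 * K) * X ^ 3) * YY (3 * K) (1 - K / 2) * Theta (3 * K) (Cser K ^ k) := by
  rw [Psi_pow, psi_Aser K hK, mul_pow, mul_pow, mul_pow, coeff_E1_pow, coeff_E2_pow, coeff_YY_pow,
    Theta_pow, hk]
  have e1 : E1 (C (2 * K) * X ^ 3) = E1 (C K * -X ^ 3) * E1 (C (3 * K) * X ^ 3) := by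
    rw [← E1_add]
    congr 1
    have : C (3 * K) = C (2 * K) + C K := by rw [← C_add]; congr 1; ring
    rw [this]
    ring
  have e2 : E2 (C K * (C (-(9 * K / 2)) * X ^ 4)) * E2 (C ((3 * K) ^ 2 / 2) * X ^ 4) = 1 := by
    rw [← E2_add, ← E2_zero]
    congr 1
    rw [← mul_assoc, ← C_mul, ← add_mul, ← C_add]
    have : K * -(9 * K / 2) + (3 * K) ^ 2 / 2 = 0 := by ring
    rw [this, C_0, zero_mul]
  have e3 : YY (3 * K) (1 - K / 2) = YY (3 * K) (K * -(1 / 2)) * YY (3 * K) 1 := by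
    rw [← YY_add]
    congr 1
    ring
  rw [e1, e3]
  calc _ = (E2 (C K * (C (-(9 * K / 2)) * X ^ 4)) * E2 (C ((3 * K) ^ 2 / 2) * X ^ 4)) *
        (E1 (C K * -X ^ 3) * E1 (C (3 * K) * X ^ 3) *
          (YY (3 * K) (K * -(1 / 2)) * YY (3 * K) 1) * Theta (3 * K) (Cser K) ^ k) := by ring
    _ = _ := by rw [e2, one_mul]

/-- expansion of `Theta` -/
private theorem coeff_Theta (a μ : ℝ) (E : PowerSeries ℝ[X]) (P : PowerSeries ℝ) (N : ℕ) :
    Lam (PowerSeries.coeff (2 * N) (E * YY a μ * Theta a P)) =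
      ∑ j ∈ range (N + 1), PowerSeries.coeff j P *
        Lam (PowerSeries.coeff (2 * (N - j)) (E * YY a (μ - 3 * j))) := by
  have hz : (PowerSeries.X : PowerSeries ℝ[X]) ∣ PowerSeries.X ^ 2 * YY a (-3) :=
    Dvd.dvd.mul_right (dvd_pow_self _ two_ne_zero) _
  have h1 := DD_trunc _ hz (PowerSeries.map (algebraMap ℝ (PowerSeries ℝ[X])) P) (2 * N + 1)
  have h2 : PowerSeries.coeff (2 * N) (E * YY a μ * Theta a P) =
      PowerSeries.coeff (2 * N) (E * YY a μ * ∑ i ∈ range (2 * N + 1),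
        (PowerSeries.X ^ 2 * YY a (-3)) ^ i *
          PowerSeries.coeff i (PowerSeries.map (algebraMap ℝ (PowerSeries ℝ[X])) P)) := by
    rw [← sub_eq_zero, ← map_sub, ← mul_sub]
    have h3 := Dvd.dvd.mul_left h1 (E * YY a μ)
    exact PowerSeries.X_pow_dvd_iff.1 h3 _ (by omega)
  have h3 : ∀ i : ℕ, E * YY a μ * ((PowerSeries.X ^ 2 * YY a (-3)) ^ i *
      PowerSeries.coeff i (PowerSeries.map (algebraMap ℝ (PowerSeries ℝ[X])) P)) =
      PowerSeries.X ^ (2 * i) * (PowerSeries.C (C (PowerSeries.coeff i P)) *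
        (E * YY a (μ - 3 * i))) := by
    intro i
    rw [mul_pow, coeff_YY_pow, ← pow_mul, PowerSeries.coeff_map]
    have e1 : algebraMap ℝ (PowerSeries ℝ[X]) (PowerSeries.coeff i P) =
        PowerSeries.C (C (PowerSeries.coeff i P)) := by
      rw [PowerSeries.algebraMap_apply, Polynomial.algebraMap_eq]
    have e2 : YY a (μ - 3 * i) = YY a μ * YY a (i * -3) := by
      rw [← YY_add]
      congr 1
      ring
    rw [e1, e2]
    ring
  rw [h2, Finset.mul_sum, map_sum, map_sum]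
  have h4 : ∀ i ∈ range (2 * N + 1), Lam (PowerSeries.coeff (2 * N) (E * YY a μ *
      ((PowerSeries.X ^ 2 * YY a (-3)) ^ i *
      PowerSeries.coeff i (PowerSeries.map (algebraMap ℝ (PowerSeries ℝ[X])) P)))) =
      if i ∈ range (N + 1) then PowerSeries.coeff i P *
        Lam (PowerSeries.coeff (2 * (N - i)) (E * YY a (μ - 3 * i))) else 0 := by
    intro i _
    rw [h3, PowerSeries.coeff_X_pow_mul']
    by_cases hi : i ≤ N
    · rw [if_pos (by omega), if_pos (by simpa using by omega), PowerSeries.coeff_C_mul,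
        coeff_Lam_C_mul]
      have : 2 * N - 2 * i = 2 * (N - i) := by omega
      rw [this]
    · rw [if_neg (by omega), if_neg (by simpa using by omega), map_zero]
  rw [Finset.sum_congr rfl h4, Finset.sum_ite_mem]
  congr 1
  ext i
  simp only [mem_inter, mem_range]
  omega

theorem lam_coeff (k N : ℕ) (hk : 1 ≤ k) :
    Lam (PowerSeries.coeff (2 * N) (Aser (k : ℝ) ^ k)) = (k : ℝ) ^ (2 * N) *
      ∑ j ∈ range (N + 1), PowerSeries.coeff j (Eser ^ k) * (k : ℝ) ^ j * 9 ^ (N - j) *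
        mm (N - j) (1 - (k : ℝ) / 2 - 3 * j) := by
  have hK : (k : ℝ) ≠ 0 := by
    have : 0 < k := hk
    positivity
  rw [change_var (3 * (k : ℝ)), coeff_prod (k : ℝ) hK k rfl, coeff_Theta, Finset.mul_sum]
  apply Finset.sum_congr rfl
  intro j hj
  have hj' : j ≤ N := by
    have := Finset.mem_range.1 hj
    omega
  rw [coeff_basic, coeff_Cser]
  obtain ⟨r, rfl⟩ := Nat.exists_eq_add_of_le hj'
  have : j + r - j = r := by omega
  rw [this]
  have e1 : ((k : ℝ)) ^ (2 * (j + r)) = (k : ℝ) ^ (2 * j) * (k : ℝ) ^ (2 * r) := by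
    rw [← pow_add]
    congr 1
    ring
  have e2 : ((k : ℝ)) ^ (3 * j) = (k : ℝ) ^ (2 * j) * (k : ℝ) ^ j := by
    rw [← pow_add]
    congr 1
    ring
  have e3 : (3 * (k : ℝ)) ^ (2 * r) = 9 ^ r * (k : ℝ) ^ (2 * r) := by
    rw [mul_pow, pow_mul]
    norm_num
  rw [e1, e2, e3]
  ring

end Pool.Agent.H69Cubic
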