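import Pool.Agent.H69Cubic.Defs

/-!
# Sums over colourings and powers of exponential generating series
-/

set_option autoImplicit false

namespace Pool.Agent.H69Cubic

open Finset Polynomial

private theorem multi_leibniz {ι R : Type} [CommRing R] [DecidableEq ι] (s : Finset ι)
    (f : ι → PowerSeries R) :
    PowerSeries.derivative R (∏ c ∈ s, f c) =
      ∑ c₀ ∈ s, ∏ c ∈ s, (if c = c₀ then PowerSeries.derivative R (f c) else f c) := by
  induction s using Finset.induction_on with
  | empty => simp
  | insert a s ha ih =>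
    rw [prod_insert ha, Derivation.leibniz, sum_insert ha, prod_insert ha, if_pos rfl, ih,
      smul_eq_mul, smul_eq_mul, mul_sum, add_comm]
    congr 1
    · rw [mul_comm]
      congr 1
      refine prod_congr rfl fun c hc => ?_
      rw [if_neg]
      rintro rfl
      exact ha hc
    · refine sum_congr rfl fun c₀ hc₀ => ?_
      rw [prod_insert ha, if_neg]
      rintro rfl
      exact ha hc₀

private theorem multi_deriv (g : ℕ → ℝ[X]) :
    PowerSeries.derivative ℝ[X] (PowerSeries.mk fun i => C ((i.factorial : ℝ)⁻¹) * g i) =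
      PowerSeries.mk fun i => C ((i.factorial : ℝ)⁻¹) * g (i + 1) := by
  ext n : 1
  rw [PowerSeries.coeff_derivative, PowerSeries.coeff_mk, PowerSeries.coeff_mk]
  have h : ((n : ℝ[X]) + 1) = C ((n : ℝ) + 1) := by simp
  rw [h, mul_right_comm, ← C_mul]
  congr 2
  rw [Nat.factorial_succ]
  have : (n.factorial : ℝ) ≠ 0 := by positivity
  have h2 : ((n : ℝ) + 1) ≠ 0 := by positivity
  push_cast
  field_simp

private theorem multi_gen (n k : ℕ) : ∀ (G : Fin k → ℕ → ℝ[X]),
    ∑ σ : Fin n → Fin k, ∏ c, G c ((univ.filter (fun v => σ v = c)).card) =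
      C (n.factorial : ℝ) *
        PowerSeries.coeff n (∏ c, PowerSeries.mk fun i => C ((i.factorial : ℝ)⁻¹) * G c i) := by
  induction n with
  | zero =>
    intro G
    simp
  | succ n ih =>
    intro G
    rw [← (Fin.consEquiv (fun _ : Fin (n + 1) => Fin k)).sum_comp, Fintype.sum_prod_type]
    have hstep : ∀ c₀ : Fin k, ∑ σ : Fin n → Fin k,
        ∏ c, G c ((univ.filter (fun v : Fin (n + 1) =>
          (Fin.consEquiv (fun _ : Fin (n + 1) => Fin k)) (c₀, σ) v = c)).card) =
        C (n.factorial : ℝ) * PowerSeries.coeff n (∏ c, (if c = c₀ then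
          PowerSeries.derivative ℝ[X] (PowerSeries.mk fun i => C ((i.factorial : ℝ)⁻¹) * G c i)
          else (PowerSeries.mk fun i => C ((i.factorial : ℝ)⁻¹) * G c i))) := by
      intro c₀
      have := ih (fun c i => if c = c₀ then G c (i + 1) else G c i)
      rw [show (∏ c, (if c = c₀ then
          PowerSeries.derivative ℝ[X] (PowerSeries.mk fun i => C ((i.factorial : ℝ)⁻¹) * G c i)
          else (PowerSeries.mk fun i => C ((i.factorial : ℝ)⁻¹) * G c i))) =
          ∏ c, PowerSeries.mk fun i => C ((i.factorial : ℝ)⁻¹) *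
            (if c = c₀ then G c (i + 1) else G c i) from
          prod_congr rfl fun c _ => by
            split_ifs with h
            · rw [multi_deriv]
            · rfl, ← this]
      refine sum_congr rfl fun σ _ => prod_congr rfl fun c _ => ?_
      have hcard : (univ.filter (fun v : Fin (n + 1) =>
          (Fin.consEquiv (fun _ : Fin (n + 1) => Fin k)) (c₀, σ) v = c)).card =
          (if c = c₀ then 1 else 0) + (univ.filter (fun v => σ v = c)).card := by
        rw [card_filter, card_filter, Fin.sum_univ_succ]
        simp [Fin.consEquiv, eq_comm]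
      rw [hcard]
      split_ifs with h
      · rw [add_comm]
      · rw [zero_add]
    rw [sum_congr rfl fun c₀ _ => hstep c₀, ← mul_sum, ← map_sum, ← multi_leibniz,
      PowerSeries.coeff_derivative, Nat.factorial_succ]
    push_cast
    rw [C_mul]
    have h : ((n : ℝ[X]) + 1) = C ((n : ℝ) + 1) := by simp
    rw [h]
    ring

theorem multi (g : ℕ → ℝ[X]) (n k : ℕ) :
    ∑ σ : Fin n → Fin k, ∏ c, g ((univ.filter (fun v => σ v = c)).card) =
      C (n.factorial : ℝ) *
        PowerSeries.coeff n ((PowerSeries.mk fun i => C ((i.factorial : ℝ)⁻¹) * g i) ^ k) := by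
  rw [multi_gen n k (fun _ => g), prod_const, card_univ, Fintype.card_fin]

end Pool.Agent.H69Cubic
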