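import Pool.Agent.H69Cubic.Defs

/-!
# The coefficients of powers, and polynomiality of the average
-/

set_option autoImplicit false

namespace Pool.Agent.H69Cubic

open Finset Polynomial

private theorem poly_aa_zero : aa 0 = 1 := by
  simp [aa]

private theorem poly_rec (k j : ℕ) :
    PowerSeries.coeff (j + 1) (Eser ^ k) =
      (∑ i : Fin (j + 1), ((k : ℝ) * ((i : ℕ) + 1) - ((j : ℝ) - (i : ℕ))) * aa ((i : ℕ) + 1) *
        PowerSeries.coeff (j - i) (Eser ^ k)) / (j + 1) := by
  have hj : ((j : ℝ) + 1) ≠ 0 := by positivity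
  rw [eq_div_iff hj]
  have hD : Eser * PowerSeries.derivative ℝ (Eser ^ k) =
      PowerSeries.C (k : ℝ) * (PowerSeries.derivative ℝ Eser * Eser ^ k) := by
    rw [PowerSeries.derivative_pow]
    rcases k with _ | k
    · simp
    · rw [Nat.add_sub_cancel, map_natCast]
      ring
  have h := congrArg (PowerSeries.coeff j) hD
  rw [PowerSeries.coeff_C_mul, PowerSeries.coeff_mul, PowerSeries.coeff_mul,
    Nat.sum_antidiagonal_eq_sum_range_succ (fun a b => PowerSeries.coeff a Eser *
      PowerSeries.coeff b (PowerSeries.derivative ℝ (Eser ^ k))),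
    Nat.sum_antidiagonal_eq_sum_range_succ (fun a b =>
      PowerSeries.coeff a (PowerSeries.derivative ℝ Eser) * PowerSeries.coeff b (Eser ^ k)),
    sum_range_succ'] at h
  simp only [PowerSeries.coeff_derivative, Nat.sub_zero] at h
  have hE : ∀ n, PowerSeries.coeff n Eser = aa n := fun n => by rw [Eser, PowerSeries.coeff_mk]
  simp only [hE, poly_aa_zero, one_mul] at h
  rw [Fin.sum_univ_eq_sum_range (fun i => ((k : ℝ) * ((i : ℕ) + 1) - ((j : ℝ) - (i : ℕ))) *
    aa ((i : ℕ) + 1) * PowerSeries.coeff (j - i) (Eser ^ k)) (j + 1)]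
  have h1 : ∑ i ∈ range (j + 1), ((k : ℝ) * ((i : ℕ) + 1) - ((j : ℝ) - (i : ℕ))) *
      aa ((i : ℕ) + 1) * PowerSeries.coeff (j - i) (Eser ^ k) =
      (k : ℝ) * ∑ i ∈ range (j + 1), aa (i + 1) * ((i : ℝ) + 1) *
        PowerSeries.coeff (j - i) (Eser ^ k) -
      ∑ i ∈ range (j + 1), ((j : ℝ) - (i : ℕ)) * aa (i + 1) *
        PowerSeries.coeff (j - i) (Eser ^ k) := by
    rw [mul_sum, ← sum_sub_distrib]
    exact sum_congr rfl fun i _ => by ring
  rw [h1, ← h, sum_range_succ (fun i => ((j : ℝ) - (i : ℕ)) * aa (i + 1) *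
        PowerSeries.coeff (j - i) (Eser ^ k)) j, sub_self, zero_mul, zero_mul, add_zero]
  have h2 : ∑ i ∈ range j, aa (i + 1) * (PowerSeries.coeff (j - (i + 1) + 1) (Eser ^ k) *
      (((j - (i + 1) : ℕ) : ℝ) + 1)) =
      ∑ i ∈ range j, ((j : ℝ) - (i : ℕ)) * aa (i + 1) * PowerSeries.coeff (j - i) (Eser ^ k) := by
    refine sum_congr rfl fun i hi => ?_
    have hij : i + 1 ≤ j := mem_range.mp hi
    rw [show j - (i + 1) + 1 = j - i by omega, Nat.cast_sub hij]
    push_cast
    ring
  rw [h2]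
  ring

theorem ee_nat (k j : ℕ) : ee (k : ℝ) j = PowerSeries.coeff j (Eser ^ k) := by
  induction j using Nat.strong_induction_on with
  | _ j ih =>
    rcases j with _ | j
    · rw [ee, PowerSeries.coeff_zero_eq_constantCoeff, map_pow,
        ← PowerSeries.coeff_zero_eq_constantCoeff, Eser, PowerSeries.coeff_mk, poly_aa_zero,
        one_pow]
    · rw [ee, poly_rec]
      congr 1
      refine sum_congr rfl fun i _ => ?_
      rw [ih (j - i) (by omega)]

private def PolyFun (f : ℝ → ℝ) : Prop := ∃ P : ℝ[X], ∀ x : ℝ, P.eval x = f x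

private theorem PolyFun.const (c : ℝ) : PolyFun (fun _ => c) := ⟨C c, fun x => by simp⟩

private theorem PolyFun.id : PolyFun (fun x => x) := ⟨X, fun x => by simp⟩

private theorem PolyFun.add {f g : ℝ → ℝ} (hf : PolyFun f) (hg : PolyFun g) :
    PolyFun (fun x => f x + g x) := by
  obtain ⟨P, hP⟩ := hf
  obtain ⟨Q, hQ⟩ := hg
  exact ⟨P + Q, fun x => by simp [hP, hQ]⟩

private theorem PolyFun.mul {f g : ℝ → ℝ} (hf : PolyFun f) (hg : PolyFun g) :
    PolyFun (fun x => f x * g x) := by
  obtain ⟨P, hP⟩ := hf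
  obtain ⟨Q, hQ⟩ := hg
  exact ⟨P * Q, fun x => by simp [hP, hQ]⟩

private theorem PolyFun.sum {ι : Type} (s : Finset ι) (f : ι → ℝ → ℝ)
    (h : ∀ i ∈ s, PolyFun (f i)) : PolyFun (fun x => ∑ i ∈ s, f i x) := by
  classical
  induction s using Finset.induction_on with
  | empty => simpa using PolyFun.const 0
  | insert a s ha ih =>
    simp only [sum_insert ha]
    exact (h a (mem_insert_self a s)).add (ih fun i hi => h i (mem_insert_of_mem hi))

private theorem PolyFun.pow {f : ℝ → ℝ} (hf : PolyFun f) (n : ℕ) :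
    PolyFun (fun x => f x ^ n) := by
  obtain ⟨P, hP⟩ := hf
  exact ⟨P ^ n, fun x => by simp [hP]⟩

private theorem PolyFun.choose {f : ℝ → ℝ} (hf : PolyFun f) (l : ℕ) :
    PolyFun (fun x => Ring.choose (f x) l) := by
  obtain ⟨P, hP⟩ := hf
  refine ⟨C ((l.factorial : ℝ)⁻¹) * ((descPochhammer ℤ l).map (Int.castRingHom ℝ)).comp P,
    fun x => ?_⟩
  show _ = Ring.choose (f x) l
  rw [Ring.choose_eq_smul, eval_mul, eval_C, eval_comp, hP, smul_eq_mul, eval_map,
    Polynomial.eval₂_eq_sum, Polynomial.smeval_eq_sum]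
  congr 1
  refine sum_congr rfl fun i _ => ?_
  simp [Polynomial.smul_pow]

private theorem PolyFun.ee (j : ℕ) : PolyFun (fun x => ee x j) := by
  induction j using Nat.strong_induction_on with
  | _ j ih =>
    rcases j with _ | j
    · simp only [H69Cubic.ee]
      exact PolyFun.const 1
    · simp only [H69Cubic.ee, div_eq_mul_inv]
      refine PolyFun.mul (PolyFun.sum _ _ fun i _ => ?_) (PolyFun.const _)
      refine PolyFun.mul (PolyFun.mul ?_ (PolyFun.const _)) (ih (j - i) (by omega))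
      have := (PolyFun.id.mul (PolyFun.const ((i : ℕ) + 1))).add
        (PolyFun.const (-((j : ℝ) - (i : ℕ))))
      simpa [sub_eq_add_neg] using this

private theorem PolyFun.mm (j : ℕ) {f : ℝ → ℝ} (hf : PolyFun f) :
    PolyFun (fun x => mm j (f x)) := by
  unfold H69Cubic.mm
  refine PolyFun.sum _ _ fun i _ => ?_
  exact ((((PolyFun.const _).mul (hf.choose _)).mul (PolyFun.const _)).mul
    (PolyFun.const _)).mul (PolyFun.const _)

theorem RR_poly (N : ℕ) : ∃ P : ℝ[X], ∀ x : ℝ, P.eval x = RR N x := by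
  show PolyFun (fun x => RR N x)
  unfold RR
  refine PolyFun.sum _ _ fun j _ => ?_
  refine (((PolyFun.ee j).mul (PolyFun.id.pow j)).mul (PolyFun.const _)).mul (PolyFun.mm _ ?_)
  have := ((PolyFun.const 1).add (PolyFun.id.mul (PolyFun.const (-(1/2))))).add
    (PolyFun.const (-(3 * (j : ℝ))))
  refine Eq.mp (congrArg _ (funext fun x => ?_)) this
  ring

end Pool.Agent.H69Cubic
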