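import Pool.Agent.H69Cubic.Defs

/-! Sums over all multigraphs with given degrees. -/

set_option autoImplicit false

namespace Pool.Agent.H69Cubic

open Finset Polynomial

lemma wick_He_succ (K : ℝ) (n : ℕ) : He K (n + 1) = X * He K n + C K * derivative (He K n) := rfl

lemma wick_He_deriv (K : ℝ) (n : ℕ) : derivative (He K (n + 1)) = C ((n : ℝ) + 1) * He K n := by
  induction n with
  | zero =>
    rw [wick_He_succ]
    simp [He]
  | succ n ih =>
    rw [wick_He_succ K (n + 1), derivative_add, derivative_mul, derivative_mul, derivative_X,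
      derivative_C, ih, derivative_mul, derivative_C, wick_He_succ K n]
    push_cast
    simp only [map_add, map_one]
    ring

lemma wick_Lam_X_pow (n : ℕ) : Lam (X ^ n) = mom n := by
  unfold Lam
  rw [← monomial_one_right_eq_X_pow, Polynomial.lsum_apply, sum_monomial_index]
  · simp
  · simp

lemma wick_mom (n : ℕ) : mom (n + 2) = - (((n : ℝ) + 1) * mom n) := by
  unfold mom
  by_cases h : Even n
  · have h2 : Even (n + 2) := by
      rcases h with ⟨k, rfl⟩
      exact ⟨k + 1, by ring⟩
    rw [if_pos h, if_pos h2]
    have h3 : (n + 2) / 2 = n / 2 + 1 := by omega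
    rw [h3, pow_succ, show n + 2 - 1 = n + 1 by omega]
    rcases n with _ | n
    · simp
    · rw [show n + 1 + 1 = n + 2 by ring, Nat.doubleFactorial_add_two,
        show n + 1 - 1 = n by omega]
      push_cast
      ring
  · have h2 : ¬ Even (n + 2) := by
      intro h2
      apply h
      rcases h2 with ⟨k, hk⟩
      exact ⟨k - 1, by omega⟩
    rw [if_neg h, if_neg h2]
    ring

lemma wick_ibp (p : ℝ[X]) : Lam (X * p) = - Lam (derivative p) := by
  induction p using Polynomial.induction_on' with
  | add p q hp hq => rw [mul_add, map_add, derivative_add, map_add, hp, hq]; ring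
  | monomial n a =>
    rw [← C_mul_X_pow_eq_monomial, derivative_C_mul_X_pow, ← mul_assoc, mul_comm X (C a), mul_assoc,
      ← pow_succ']
    rw [← smul_eq_C_mul, ← smul_eq_C_mul, map_smul, map_smul, wick_Lam_X_pow, wick_Lam_X_pow]
    rcases n with _ | n
    · simp [mom]
    · rw [show n + 1 + 1 = n + 2 by ring, wick_mom, show n + 1 - 1 = n by omega]
      push_cast
      simp only [smul_eq_mul]
      ring

section

variable {V : Type} [Fintype V] [DecidableEq V] {k : ℕ} (K : ℝ) (σ : V → Fin k)

/-- number of half-edges of colour `c` -/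
def wickN (d : V → ℕ) (c : Fin k) : ℕ := ∑ v ∈ univ.filter (fun v => σ v = c), d v

/-- product of Hermite polynomials -/
noncomputable def wickH (d : V → ℕ) : ℝ[X] := ∏ c : Fin k, He K (wickN σ d c)

/-- remove one half-edge at `u` -/
def wickR (d : V → ℕ) (u : V) : V → ℕ := fun x => if x = u then d x - 1 else d x

/-- the weight of an edge -/
noncomputable def wickW (u v : V) : ℝ := K * (if σ u = σ v then (1 : ℝ) else 0) - 1

lemma wickN_R (d : V → ℕ) (u : V) (hu : 0 < d u) (c : Fin k) :
    wickN σ d c = wickN σ (wickR d u) c + if σ u = c then 1 else 0 := by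
  unfold wickN
  have h : ∀ v, d v = wickR d u v + if v = u then 1 else 0 := by
    intro v
    unfold wickR
    split_ifs with h
    · subst h; omega
    · rfl
  rw [sum_congr rfl (fun v _ => h v), sum_add_distrib, sum_ite_eq']
  simp only [mem_filter, mem_univ, true_and]

lemma wickR_sum (d : V → ℕ) (u : V) (hu : 0 < d u) : ∑ v, d v = ∑ v, wickR d u v + 1 := by
  have h : ∀ v, d v = wickR d u v + if v = u then 1 else 0 := by
    intro v
    unfold wickR
    split_ifs with h
    · subst h; omega
    · rfl
  rw [sum_congr rfl (fun v _ => h v), sum_add_distrib, sum_ite_eq']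
  simp

lemma wickR_fact (d : V → ℕ) (u : V) (hu : 0 < d u) :
    ∏ v, ((d v).factorial : ℝ) = d u * ∏ v, ((wickR d u v).factorial : ℝ) := by
  rw [← mul_prod_erase univ (fun v => ((d v).factorial : ℝ)) (mem_univ u),
    ← mul_prod_erase univ (fun v => ((wickR d u v).factorial : ℝ)) (mem_univ u), ← mul_assoc]
  congr 1
  · unfold wickR
    rw [if_pos rfl]
    obtain ⟨a, ha⟩ := Nat.exists_eq_succ_of_ne_zero hu.ne'
    rw [ha, Nat.factorial_succ]
    push_cast
    simp
  · apply prod_congr rfl
    intro v hv
    unfold wickR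
    rw [if_neg (ne_of_mem_erase hv)]

/-- derivative in one colour -/
lemma wick_colour (d : V → ℕ) (c : Fin k) :
    derivative (He K (wickN σ d c)) * ∏ c' ∈ univ.erase c, He K (wickN σ d c') =
      ∑ v ∈ univ.filter (fun v => σ v = c), C (d v : ℝ) * wickH K σ (wickR d v) := by
  by_cases h0 : wickN σ d c = 0
  · rw [h0]
    have h1 : ∀ v ∈ univ.filter (fun v => σ v = c), d v = 0 := by
      unfold wickN at h0
      exact fun v hv => (sum_eq_zero_iff.1 h0) v hv
    rw [sum_eq_zero]
    · simp [He]
    · intro v hv
      rw [h1 v hv]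
      simp
  · obtain ⟨n, hn⟩ := Nat.exists_eq_succ_of_ne_zero h0
    have h1 : ∀ v ∈ univ.filter (fun v => σ v = c), C (d v : ℝ) * wickH K σ (wickR d v) =
        C (d v : ℝ) * (He K n * ∏ c' ∈ univ.erase c, He K (wickN σ d c')) := by
      intro v hv
      rw [mem_filter] at hv
      rcases Nat.eq_zero_or_pos (d v) with h2 | h2
      · rw [h2]; simp
      · congr 1
        unfold wickH
        rw [← mul_prod_erase univ _ (mem_univ c)]
        congr 1
        · have h3 := wickN_R σ d v h2 c
          rw [if_pos hv.2, hn] at h3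
          have : wickN σ (wickR d v) c = n := by omega
          rw [this]
        · apply prod_congr rfl
          intro c' hc'
          have h3 := wickN_R σ d v h2 c'
          rw [if_neg (by rw [hv.2]; exact (ne_of_mem_erase hc').symm)] at h3
          rw [h3, add_zero]
    rw [sum_congr rfl h1, ← sum_mul, hn, wick_He_deriv]
    rw [← mul_assoc]
    congr 2
    rw [← map_sum]
    congr 1
    have h4 : ((wickN σ d c : ℕ) : ℝ) = ∑ v ∈ univ.filter (fun v => σ v = c), (d v : ℝ) := by
      unfold wickN
      push_cast
      rfl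
    rw [← h4, hn]
    push_cast
    rfl

lemma wick_fixed (d : V → ℕ) (u : V) (hu : 0 < d u) :
    Lam (wickH K σ d) = ∑ v, (wickR d u v : ℝ) * wickW K σ u v *
      Lam (wickH K σ (wickR (wickR d u) v)) := by
  set d' := wickR d u with hd'
  have h1 : wickH K σ d = X * wickH K σ d' +
      C K * (derivative (He K (wickN σ d' (σ u))) *
        ∏ c' ∈ univ.erase (σ u), He K (wickN σ d' c')) := by
    unfold wickH
    rw [← mul_prod_erase univ _ (mem_univ (σ u)),
      ← mul_prod_erase univ (fun c => He K (wickN σ d' c)) (mem_univ (σ u))]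
    have h2 := wickN_R σ d u hu (σ u)
    rw [if_pos rfl] at h2
    rw [h2, ← hd', wick_He_succ]
    have h3 : ∏ c' ∈ univ.erase (σ u), He K (wickN σ d c') =
        ∏ c' ∈ univ.erase (σ u), He K (wickN σ d' c') := by
      apply prod_congr rfl
      intro c' hc'
      have h4 := wickN_R σ d u hu c'
      rw [if_neg (ne_of_mem_erase hc').symm] at h4
      rw [h4, add_zero]
    rw [h3]
    ring
  have h5 : derivative (wickH K σ d') = ∑ c, ∑ v ∈ univ.filter (fun v => σ v = c),
      C (d' v : ℝ) * wickH K σ (wickR d' v) := by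
    unfold wickH
    rw [derivative_prod_finset]
    apply sum_congr rfl
    intro c _
    rw [mul_comm]
    exact wick_colour K σ d' c
  rw [h1, map_add, wick_ibp, h5, wick_colour, ← smul_eq_C_mul, map_smul, map_sum, map_sum]
  have h6 : ∀ c, Lam (∑ v ∈ univ.filter (fun v => σ v = c), C (d' v : ℝ) *
      wickH K σ (wickR d' v)) = ∑ v ∈ univ.filter (fun v => σ v = c),
        (d' v : ℝ) * Lam (wickH K σ (wickR d' v)) := by
    intro c
    rw [map_sum]
    apply sum_congr rfl
    intro v _
    rw [← smul_eq_C_mul, map_smul, smul_eq_mul]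
  rw [sum_congr rfl (fun c _ => h6 c)]
  have h7 : ∀ v ∈ univ.filter (fun v => σ v = σ u), Lam (C (d' v : ℝ) * wickH K σ (wickR d' v)) =
      (d' v : ℝ) * Lam (wickH K σ (wickR d' v)) := by
    intro v _
    rw [← smul_eq_C_mul, map_smul, smul_eq_mul]
  rw [sum_congr rfl h7, sum_fiberwise univ σ (fun v => (d' v : ℝ) * Lam (wickH K σ (wickR d' v))),
    sum_filter, smul_eq_mul, mul_sum, ← sum_neg_distrib, ← sum_add_distrib]
  apply sum_congr rfl
  intro v _
  unfold wickW
  by_cases h8 : σ v = σ u
  · rw [if_pos h8, if_pos h8.symm]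
    ring
  · rw [if_neg h8, if_neg (fun h => h8 h.symm)]
    ring

/-- the sum over edge lists with degrees `d` -/
noncomputable def wickS (m : ℕ) (d : V → ℕ) : ℝ :=
  ∑ f : Fin m → V × V, if (∀ v, deg f v = d v) then ∏ e, wickW K σ (f e).1 (f e).2 else 0

lemma deg_cons {m : ℕ} (p : V × V) (f : Fin m → V × V) (v : V) :
    deg (Fin.cons p f : Fin (m + 1) → V × V) v =
      ((if p.1 = v then 1 else 0) + (if p.2 = v then 1 else 0)) + deg f v := by
  unfold deg
  rw [Fin.sum_univ_succ]
  simp

lemma wickS_succ (m : ℕ) (d : V → ℕ) : wickS K σ (m + 1) d =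
    ∑ u, ∑ v, if (0 < d u ∧ 0 < wickR d u v) then
      wickW K σ u v * wickS K σ m (wickR (wickR d u) v) else 0 := by
  unfold wickS
  rw [← Equiv.sum_comp (Fin.consEquiv (fun _ : Fin (m + 1) => V × V)), Fintype.sum_prod_type,
    Fintype.sum_prod_type]
  apply sum_congr rfl
  intro u _
  apply sum_congr rfl
  intro v _
  by_cases h : 0 < d u ∧ 0 < wickR d u v
  · rw [if_pos h, mul_sum]
    apply sum_congr rfl
    intro f _
    have h1 : (∀ x, deg ((Fin.consEquiv (fun _ : Fin (m + 1) => V × V)) ((u, v), f)) x = d x) ↔
        ∀ x, deg f x = wickR (wickR d u) v x := by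
      apply forall_congr'
      intro x
      have h2 : deg ((Fin.consEquiv (fun _ : Fin (m + 1) => V × V)) ((u, v), f)) x =
          ((if u = x then 1 else 0) + (if v = x then 1 else 0)) + deg f x := deg_cons (u, v) f x
      rw [h2]
      obtain ⟨h3, h4⟩ := h
      unfold wickR at h4 ⊢
      by_cases hu : u = x
      · subst hu
        by_cases hv : v = u
        · subst hv
          simp only [if_true] at h4 ⊢
          omega
        · have hv' : ¬ (u = v) := fun h => hv h.symm
          simp only [hv, hv', if_true, if_false]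
          omega
      · have hu' : ¬ (x = u) := fun h => hu h.symm
        by_cases hv : v = x
        · subst hv
          simp only [hu, hu', if_true, if_false] at h4 ⊢
          omega
        · have hv' : ¬ (x = v) := fun h => hv h.symm
          simp only [hu, hu', hv, hv', if_false]
          omega
    by_cases h5 : ∀ x, deg f x = wickR (wickR d u) v x
    · rw [if_pos (h1.2 h5), if_pos h5, Fin.prod_univ_succ]
      rfl
    · rw [if_neg (fun h => h5 (h1.1 h)), if_neg h5, mul_zero]
  · rw [if_neg h]
    apply sum_eq_zero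
    intro f _
    rw [if_neg]
    intro h1
    apply h
    have h2 : ∀ x, ((if u = x then 1 else 0) + (if v = x then 1 else 0)) + deg f x = d x :=
      fun x => (deg_cons (u, v) f x).symm.trans (h1 x)
    constructor
    · have := h2 u
      rw [if_pos rfl] at this
      omega
    · have h3 := h2 v
      rw [if_pos rfl] at h3
      unfold wickR
      split_ifs with h4
      · subst h4
        rw [if_pos rfl] at h3
        omega
      · omega

theorem wick_aux (m : ℕ) : ∀ d : V → ℕ, ∑ v, d v = 2 * m →
    wickS K σ m d * ∏ v, ((d v).factorial : ℝ) = (m.factorial : ℝ) * 2 ^ m * Lam (wickH K σ d) := by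
  induction m with
  | zero =>
    intro d hd
    have h0 : ∀ v, d v = 0 := by
      intro v
      rw [mul_zero] at hd
      exact (sum_eq_zero_iff.1 hd) v (mem_univ v)
    have h1 : wickH K σ d = 1 := by
      unfold wickH wickN
      apply prod_eq_one
      intro c _
      rw [sum_eq_zero (fun v _ => h0 v)]
      rfl
    rw [h1]
    have h2 : Lam 1 = 1 := by
      rw [← pow_zero X, wick_Lam_X_pow]
      simp [mom]
    rw [h2]
    unfold wickS
    simp [h0, deg]
  | succ m ih =>
    intro d hd
    rw [wickS_succ, sum_mul]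
    have h1 : ∀ u, (∑ v, if (0 < d u ∧ 0 < wickR d u v) then
        wickW K σ u v * wickS K σ m (wickR (wickR d u) v) else 0) * ∏ v, ((d v).factorial : ℝ) =
        (m.factorial : ℝ) * 2 ^ m * ((d u : ℝ) * Lam (wickH K σ d)) := by
      intro u
      rcases Nat.eq_zero_or_pos (d u) with hu | hu
      · rw [hu]
        simp
      · rw [wick_fixed K σ d u hu, sum_mul, mul_sum, mul_sum]
        apply sum_congr rfl
        intro v _
        rcases Nat.eq_zero_or_pos (wickR d u v) with hv | hv
        · rw [hv, if_neg (by simp)]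
          simp
        · rw [if_pos ⟨hu, hv⟩, wickR_fact d u hu, wickR_fact (wickR d u) v hv]
          have h2 := ih (wickR (wickR d u) v) (by
            have h3 := wickR_sum d u hu
            have h4 := wickR_sum (wickR d u) v hv
            omega)
          linear_combination (wickW K σ u v * (d u : ℝ) * (wickR d u v : ℝ)) * h2
    rw [sum_congr rfl (fun u _ => h1 u), ← mul_sum, ← sum_mul]
    have h5 : ∑ u, (d u : ℝ) = 2 * (m + 1) := by
      have : ((∑ u, d u : ℕ) : ℝ) = ((2 * (m + 1) : ℕ) : ℝ) := by rw [hd]
      push_cast at this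
      exact this
    rw [h5, Nat.factorial_succ]
    push_cast
    ring

theorem wick (m : ℕ) (d : V → ℕ) (hd : ∑ v, d v = 2 * m) :
    (∑ f : Fin m → V × V, if (∀ v, deg f v = d v) then
        ∏ e, (K * (if σ (f e).1 = σ (f e).2 then (1 : ℝ) else 0) - 1) else 0) *
      ∏ v, ((d v).factorial : ℝ) =
    (m.factorial : ℝ) * 2 ^ m *
      Lam (∏ c : Fin k, He K (∑ v ∈ univ.filter (fun v => σ v = c), d v)) :=
  wick_aux K σ m d hd

end

end Pool.Agent.H69Cubic
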