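import Pool.Agent.H69Cubic.Defs
import Pool.Agent.H69Cubic.Wick
import Pool.Agent.H69Cubic.Multi
import Pool.Agent.H69Cubic.Coeff
import Pool.Agent.H69Cubic.Poly

/-! The average over cubic multigraphs and the conclusion. -/

set_option autoImplicit false

namespace Pool.Agent.H69Cubic

open Finset Polynomial Pool.Agent.H69.Flow

/-- The sum of `zp` over all edge lists with all degrees three. -/
noncomputable def cubicSum (N : ℕ) : ℝ[X] :=
  ∑ f : Fin (3 * N) → Fin (2 * N) × Fin (2 * N),
    if (∀ v, deg f v = 3) then zp (fun e => (f e).1) (fun e => (f e).2) else 0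

lemma cubicSum_eval (N k : ℕ) : (cubicSum N).eval (k : ℝ) * 6 ^ (2 * N) =
    ((3 * N).factorial : ℝ) * 2 ^ (3 * N) * (((2 * N).factorial : ℝ) *
      Lam (PowerSeries.coeff (2 * N) (Aser (k : ℝ) ^ k))) := by
  have h1 : (cubicSum N).eval (k : ℝ) = ∑ σ : Fin (2 * N) → Fin k,
      ∑ f : Fin (3 * N) → Fin (2 * N) × Fin (2 * N), if (∀ v, deg f v = 3) then
        ∏ e, ((k : ℝ) * (if σ (f e).1 = σ (f e).2 then (1 : ℝ) else 0) - 1) else 0 := by
    unfold cubicSum
    rw [eval_finsetSum, sum_comm]
    apply sum_congr rfl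
    intro f _
    by_cases h : ∀ v, deg f v = 3
    · rw [if_pos h, zp_eq_zm, potts]
      refine sum_congr (by ext; simp) ?_
      intro σ _
      rw [if_pos h, if_pos (by simp), one_mul]
      apply prod_congr rfl
      intro e _
      unfold wt
      congr 2
    · simp only [if_neg h]
      simp
  have h2 : ∀ σ : Fin (2 * N) → Fin k,
      (∑ f : Fin (3 * N) → Fin (2 * N) × Fin (2 * N), if (∀ v, deg f v = 3) then
        ∏ e, ((k : ℝ) * (if σ (f e).1 = σ (f e).2 then (1 : ℝ) else 0) - 1) else 0) *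
        6 ^ (2 * N) = ((3 * N).factorial : ℝ) * 2 ^ (3 * N) *
        Lam (∏ c : Fin k, He (k : ℝ) (3 * (univ.filter (fun v => σ v = c)).card)) := by
    intro σ
    have h3 := wick (k : ℝ) σ (3 * N) (fun _ => 3) (by simp; ring)
    have h4 : ∏ v : Fin (2 * N), (((3 : ℕ).factorial : ℕ) : ℝ) = 6 ^ (2 * N) := by
      rw [prod_const, card_univ, Fintype.card_fin]
      norm_num [Nat.factorial]
    rw [h4] at h3
    refine Eq.trans ?_ (h3.trans ?_)
    · congr!
    · congr 2
      apply prod_congr rfl
      intro c _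
      rw [sum_const, smul_eq_mul, mul_comm]
  rw [h1, sum_mul, sum_congr rfl (fun σ _ => h2 σ), ← mul_sum, ← map_sum,
    multi (fun i => He (k : ℝ) (3 * i)) (2 * N) k]
  rw [← smul_eq_C_mul, map_smul, smul_eq_mul]
  rfl

theorem cubicSum_formula (N : ℕ) (x : ℝ) : (cubicSum N).eval x * 6 ^ (2 * N) =
    ((3 * N).factorial : ℝ) * 2 ^ (3 * N) * ((2 * N).factorial : ℝ) * x ^ (2 * N) * RR N x := by
  obtain ⟨P, hP⟩ := RR_poly N
  have h1 : cubicSum N * C (6 ^ (2 * N)) =
      C (((3 * N).factorial : ℝ) * 2 ^ (3 * N) * ((2 * N).factorial : ℝ)) * X ^ (2 * N) * P := by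
    apply Polynomial.eq_of_infinite_eval_eq
    have h2 : Set.range (fun k : ℕ => ((k + 1 : ℕ) : ℝ)) ⊆ {x | eval x (cubicSum N * C (6 ^ (2 * N)))
        = eval x (C (((3 * N).factorial : ℝ) * 2 ^ (3 * N) * ((2 * N).factorial : ℝ)) *
          X ^ (2 * N) * P)} := by
      rintro _ ⟨k, rfl⟩
      simp only [Set.mem_ofPred_eq, eval_mul, eval_C, eval_pow, eval_X, hP]
      rw [cubicSum_eval, lam_coeff (k + 1) N (by omega)]
      unfold RR
      simp only [ee_nat]
      ring
    refine Set.Infinite.mono h2 (Set.infinite_range_of_injective ?_)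
    intro a b hab
    have : ((a + 1 : ℕ) : ℝ) = ((b + 1 : ℕ) : ℝ) := hab
    have := Nat.cast_injective this
    omega
  have h3 := congrArg (eval x) h1
  simp only [eval_mul, eval_C, eval_pow, eval_X, hP] at h3
  exact h3

/-- Some cubic multigraph has a negative flow polynomial value whenever `RR N x` is negative. -/
theorem exists_neg (N : ℕ) (x : ℝ) (hx : 0 < x) (h : RR N x < 0) :
    ∃ f : Fin (3 * N) → Fin (2 * N) × Fin (2 * N), (∀ v, deg f v = 3) ∧
      (zp (fun e => (f e).1) (fun e => (f e).2)).eval x < 0 := by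
  by_contra hcon
  push Not at hcon
  have h1 : 0 ≤ (cubicSum N).eval x := by
    unfold cubicSum
    rw [eval_finsetSum]
    apply sum_nonneg
    intro f _
    split_ifs with hf
    · exact hcon f hf
    · simp
  have h2 := cubicSum_formula N x
  have h3 : 0 ≤ (cubicSum N).eval x * 6 ^ (2 * N) := by positivity
  rw [h2] at h3
  have h4 : 0 < ((3 * N).factorial : ℝ) * 2 ^ (3 * N) * ((2 * N).factorial : ℝ) * x ^ (2 * N) := by
    positivity
  nlinarith [mul_pos_of_neg_of_neg (a := RR N x) (b := -1) h (by norm_num), mul_neg_of_pos_of_neg h4 h]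

/-- Density of flow roots near a point with a negative value. -/
theorem dense_near (x : ℝ) (hx : 2 < x) {V E : Type} [Fintype V] [Fintype E] (s t : E → V)
    (h : (zp s t).eval x < 0) :
    ∃ a b : ℝ, a < x ∧ x < b ∧ Set.Icc a b ⊆ closure flowRoots := by
  have h1 : ∀ᶠ y in nhds x, (zp s t).eval y < 0 :=
    (zp s t).continuous.continuousAt.eventually_lt continuousAt_const h
  obtain ⟨ε, hε, h2⟩ := Metric.eventually_nhds_iff.1 h1
  refine ⟨x - min (ε / 2) ((x - 2) / 2), x + min (ε / 2) ((x - 2) / 2), ?_, ?_, ?_⟩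
  · have : 0 < min (ε / 2) ((x - 2) / 2) := lt_min (by positivity) (by linarith)
    linarith
  · have : 0 < min (ε / 2) ((x - 2) / 2) := lt_min (by positivity) (by linarith)
    linarith
  · intro y hy
    have hm1 : min (ε / 2) ((x - 2) / 2) ≤ ε / 2 := min_le_left _ _
    have hm2 : min (ε / 2) ((x - 2) / 2) ≤ (x - 2) / 2 := min_le_right _ _
    have hy2 : 2 < y := by
      have := hy.1
      linarith
    have hneg : (zp s t).eval y < 0 := by
      apply h2
      rw [Real.dist_eq, abs_lt]
      constructor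
      · have := hy.1
        linarith
      · have := hy.2
        linarith
    rw [Metric.mem_closure_iff]
    intro δ hδ
    by_contra hcon
    push Not at hcon
    have hgap : ∀ r ∈ flowRoots, r ∉ Set.Ioo (max 2 (y - δ)) (y + δ) := by
      intro r hr hr2
      have h3 := hcon r hr
      rw [Real.dist_eq, le_abs] at h3
      have h4 : y - δ < r := lt_of_le_of_lt (le_max_right _ _) hr2.1
      rcases h3 with h3 | h3
      · linarith [hr2.2]
      · linarith [hr2.2]
    have hgood := good_of_gap (le_max_left 2 (y - δ)) (by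
      rw [max_lt_iff]; constructor <;> linarith) hgap y ⟨by
        rw [max_lt_iff]; constructor <;> linarith, by linarith⟩
    exact absurd (hgood V E s t) (by linarith)

end Pool.Agent.H69Cubic
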