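import Mathlib
import Pool.Agent.H69.FlowDefs
import Pool.Agent.H69.FlowProof

/-!
# Sums of flow polynomials over cubic multigraphs: definitions
-/

set_option autoImplicit false

namespace Pool.Agent.H69Cubic

open Finset Polynomial

/-- Moments of the formal Gaussian of variance `-1`. -/
noncomputable def mom (j : ℕ) : ℝ :=
  if Even j then (-1) ^ (j / 2) * ((j - 1).doubleFactorial : ℝ) else 0

/-- The functional `X ^ j ↦ mom j`. -/
noncomputable def Lam : ℝ[X] →ₗ[ℝ] ℝ := Polynomial.lsum (fun j => mom j • LinearMap.id)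

/-- Hermite polynomials with parameter `K`. -/
noncomputable def He (K : ℝ) : ℕ → ℝ[X]
  | 0 => 1
  | n + 1 => X * He K n + C K * derivative (He K n)

/-- The one-colour series. -/
noncomputable def Aser (K : ℝ) : PowerSeries ℝ[X] :=
  PowerSeries.mk fun n => C ((n.factorial : ℝ)⁻¹) * He K (3 * n)

/-- The coefficients `(6 i - 1)!! / (2 i)!`. -/
noncomputable def aa (i : ℕ) : ℝ := ((6 * i - 1).doubleFactorial : ℝ) / ((2 * i).factorial : ℝ)

/-- The series with coefficients `aa`. -/
noncomputable def Eser : PowerSeries ℝ := PowerSeries.mk aa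

/-- The series of the values at zero. -/
noncomputable def Cser (K : ℝ) : PowerSeries ℝ := PowerSeries.mk fun n => K ^ (3 * n) * aa n

/-- The tree sums. -/
noncomputable def mm (j : ℕ) (μ : ℝ) : ℝ :=
  ∑ i ∈ range (2 * j + 1), (2 / 3) ^ i / (i.factorial : ℝ) * Ring.choose μ (2 * j - i) *
    2 ^ (2 * j - i) * (-1) ^ (i + j) * ((2 * (i + j) - 1).doubleFactorial : ℝ)

/-- The coefficients of the power `x` of `Eser`. -/
noncomputable def ee (x : ℝ) : ℕ → ℝ
  | 0 => 1
  | j + 1 => (∑ i : Fin (j + 1), (x * ((i : ℕ) + 1) - ((j : ℝ) - (i : ℕ))) * aa ((i : ℕ) + 1) *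
      ee x (j - i)) / (j + 1)

/-- The value of the average, up to a positive factor. -/
noncomputable def RR (N : ℕ) (x : ℝ) : ℝ :=
  ∑ j ∈ range (N + 1), ee x j * x ^ j * 9 ^ (N - j) * mm (N - j) (1 - x / 2 - 3 * j)

/-- The degree of `v` in the multigraph with edges `f`. -/
def deg {V : Type} [DecidableEq V] {m : ℕ} (f : Fin m → V × V) (v : V) : ℕ :=
  ∑ e, ((if (f e).1 = v then 1 else 0) + (if (f e).2 = v then 1 else 0))

/-! ### Formal change of variables -/

/-- Coefficientwise derivative in `X`. -/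
noncomputable def dx : PowerSeries ℝ[X] →ₗ[ℝ] PowerSeries ℝ[X] where
  toFun F := PowerSeries.mk fun n => derivative (PowerSeries.coeff n F)
  map_add' F G := by ext n : 1; simp
  map_smul' c F := by
    ext n : 1
    simp

/-- The element `h = -X - a X² t`. -/
noncomputable def hh (a : ℝ) : PowerSeries ℝ[X] :=
  PowerSeries.C (-X) - PowerSeries.C (C a * X ^ 2) * PowerSeries.X

/-- `(1 + 2 a X t) ^ s`. -/
noncomputable def YY (a s : ℝ) : PowerSeries ℝ[X] :=
  PowerSeries.rescale (C (2 * a) * X) (PowerSeries.binomialSeries ℝ[X] s)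

/-- `exp (p t)`. -/
noncomputable def E1 (p : ℝ[X]) : PowerSeries ℝ[X] :=
  PowerSeries.mk fun n => C ((n.factorial : ℝ)⁻¹) * p ^ n

/-- `exp (p t²)`. -/
noncomputable def E2 (p : ℝ[X]) : PowerSeries ℝ[X] :=
  PowerSeries.mk fun n => if Even n then C (((n / 2).factorial : ℝ)⁻¹) * p ^ (n / 2) else 0

/-- `∑ z ^ i F_i` for `z` divisible by `t`. -/
noncomputable def DD {S : Type} [CommRing S] (z : PowerSeries S)
    (F : PowerSeries (PowerSeries S)) : PowerSeries S :=
  PowerSeries.mk fun n => ∑ i ∈ range (n + 1),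
    PowerSeries.coeff n (z ^ i * PowerSeries.coeff i F)

/-- The substitution `H ↦ h` in a power series with polynomial coefficients. -/
noncomputable def Psi (a : ℝ) (F : PowerSeries ℝ[X]) : PowerSeries ℝ[X] :=
  DD PowerSeries.X (PowerSeries.map (Polynomial.aeval (hh a)).toRingHom F)

/-- `∑ p_n (t² (1 + 2 a X t)⁻³) ^ n`. -/
noncomputable def Theta (a : ℝ) (P : PowerSeries ℝ) : PowerSeries ℝ[X] :=
  DD (PowerSeries.X ^ 2 * YY a (-3)) (PowerSeries.map (algebraMap ℝ (PowerSeries ℝ[X])) P)

end Pool.Agent.H69Cubic
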