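import Pool.Agent.H69Cubic.Defs

/-!
# Exact evaluation of the sum at `x = 601 / 100`, `N = 440`
-/

set_option autoImplicit false

namespace Pool.Agent.H69Cubic

open Finset Polynomial

namespace Kernel

/-! ### The integer scheme -/

/-- inner loop: partial sums of `mm` with all denominators cleared -/
noncomputable def yl (j c n : ℕ) : ℕ → ℕ → ℕ → ℕ :=
  Nat.rec (motive := fun _ => ℕ → ℕ → ℕ → ℕ) (fun _ _ Y => Y)
    (fun _ ih r A Y => (fun A' => ih (Nat.succ r) A'
      (Nat.add (Nat.mul Y (Nat.mul (Nat.mul 400 (Nat.succ r))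
        (Nat.sub (Nat.mul 6 j) (Nat.succ (Nat.mul 2 r))))) A'))
      (Nat.mul A (Nat.mul (Nat.mul 6 (Nat.sub (Nat.mul 2 j) r)) (Nat.add c (Nat.mul 200 r))))) n

/-- the list of the numbers `8 ^ i 100 ^ (i - 1) aa i` -/
noncomputable def csl (n : ℕ) : ℕ → ℕ → List ℕ :=
  Nat.rec (motive := fun _ => ℕ → ℕ → List ℕ) (fun _ _ => [])
    (fun _ ih i c => List.cons c (ih (Nat.succ i)
      (Nat.div (Nat.mul c (Nat.mul (Nat.mul 1200 (Nat.succ (Nat.mul 6 i)))
        (Nat.add (Nat.mul 6 i) 5))) (Nat.succ i)))) n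

/-- one step of the recursion for the numbers `j! 800 ^ j ee j` -/
noncomputable def goE (j : ℕ) (es0 es : List ℕ) : List ℕ → ℕ → ℕ → ℕ → ℕ → List ℕ :=
  List.rec (motive := fun _ => List ℕ → ℕ → ℕ → ℕ → ℕ → List ℕ)
    (fun _ _ _ pos neg => cond (Nat.ble neg pos) (List.cons (Nat.sub pos neg) es0) [])
    (fun e _ ih cs i F pos neg => List.rec (motive := fun _ => List ℕ) []
      (fun c cs' _ => (fun t => ih cs' (Nat.succ i) (Nat.mul F (Nat.sub j i))
        (Nat.add pos (Nat.mul (Nat.sub (Nat.mul 601 (Nat.succ i)) (Nat.mul 100 (Nat.sub j i))) t))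
        (Nat.add neg (Nat.mul (Nat.sub (Nat.mul 100 (Nat.sub j i)) (Nat.mul 601 (Nat.succ i))) t)))
        (Nat.mul (Nat.mul c F) e)) cs) es

/-- the list of the numbers `j! 800 ^ j ee j`, `j = n, ..., 0` -/
noncomputable def EL (n m : ℕ) : List ℕ :=
  Nat.rec (motive := fun _ => List ℕ) [1] (fun j L => goE j L L (csl m 1 60) 0 1 0 0) n

/-- the outer loop -/
noncomputable def fin (es : List ℕ) : ℕ → ℕ → ℕ → ℕ → ℕ → Bool :=
  List.rec (motive := fun _ => ℕ → ℕ → ℕ → ℕ → ℕ → Bool)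
    (fun _ _ _ P M => Nat.ble (Nat.succ P) M)
    (fun e _ ih j k D P M => (fun D' => (fun g => ih (Nat.succ j) (Nat.pred k) D'
      (Nat.add (Nat.mul (Nat.mul e D') (yl j (Nat.add 401 (Nat.mul 600 k)) (Nat.mul 2 j) 0 1 1))
        (Nat.mul g M))
      (Nat.mul g P)) (Nat.mul 601 (Nat.pow (Nat.mul (Nat.mul 2 j) (Nat.sub (Nat.mul 2 j) 1)) 2)))
      (Nat.mul D (Nat.mul (Nat.mul 2 (Nat.succ k)) (Nat.sub (Nat.mul 2 j) 1)))) es

/-- the whole computation -/
noncomputable def chk (N : ℕ) : Bool :=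
  (fun L => cond (Nat.beq (List.length L) (Nat.succ N))
    (List.rec (motive := fun _ => Bool) false (fun e es _ => fin es 1 (Nat.pred N) 1 e 0) L)
    false) (EL N N)

/-! ### The inner loop -/

lemma yl_zero (j c r A Y : ℕ) : yl j c 0 r A Y = Y := rfl

lemma yl_succ (j c n r A Y : ℕ) : yl j c (n + 1) r A Y =
    yl j c n (r + 1) (A * (6 * (2 * j - r) * (c + 200 * r)))
      (Y * (400 * (r + 1) * (6 * j - (2 * r + 1))) + A * (6 * (2 * j - r) * (c + 200 * r))) := rfl

lemma choose_step (μ : ℝ) (l : ℕ) :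
    Ring.choose μ (l + 1) * ((l : ℝ) + 1) = Ring.choose μ l * (μ - l) := by
  have h := Ring.choose_smul_choose μ (Nat.le_succ l)
  rw [Nat.succ_eq_add_one, Nat.add_sub_cancel_left, Ring.choose_one_right, nsmul_eq_mul,
    Nat.choose_succ_self_right] at h
  rw [← h]
  push_cast
  ring

/-- the terms of `mm` in reverse order -/
noncomputable def TT (j : ℕ) (μ : ℝ) (l : ℕ) : ℝ :=
  (2 / 3) ^ (2 * j - l) / ((2 * j - l).factorial : ℝ) * Ring.choose μ l * 2 ^ l *
    (-1) ^ (2 * j - l + j) * ((2 * (2 * j - l + j) - 1).doubleFactorial : ℝ)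

lemma TT_succ (j c : ℕ) (μ : ℝ) (hμ : (c : ℝ) = -200 * μ) (l : ℕ) (hl : l < 2 * j) :
    TT j μ (l + 1) * (((400 * (l + 1) * (6 * j - (2 * l + 1)) : ℕ)) : ℝ) =
      TT j μ l * ((6 * (2 * j - l) * (c + 200 * l) : ℕ) : ℝ) := by
  obtain ⟨n, hn⟩ : ∃ n, 2 * j = l + 1 + n := ⟨2 * j - (l + 1), by omega⟩
  have e1 : 2 * j - l = n + 1 := by omega
  have e2 : 2 * j - (l + 1) = n := by omega
  have e3 : 6 * j - (2 * l + 1) = 2 * (n + j) + 1 := by omega
  have e4 : 2 * (n + 1 + j) - 1 = 2 * (n + j) + 1 := by omega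
  unfold TT
  rw [e1, e2, e3, e4, Nat.doubleFactorial_add_one, Nat.factorial_succ]
  have h1 : ((n.factorial : ℕ) : ℝ) ≠ 0 := by positivity
  have hs := choose_step μ l
  have h3 : (-1 : ℝ) ^ (n + 1 + j) = - (-1) ^ (n + j) := by
    rw [show n + 1 + j = n + j + 1 by ring, pow_succ]; ring
  rw [h3]
  push_cast
  rw [hμ]
  have h2 : ((n : ℝ) + 1) ≠ 0 := by positivity
  set D : ℝ := ((2 * (n + j) - 1).doubleFactorial : ℝ) with hD
  set s : ℝ := (-1) ^ (n + j) with hsdef
  have key : (2 / 3 : ℝ) ^ n / (n.factorial : ℝ) * Ring.choose μ (l + 1) * 2 ^ (l + 1) * s * D *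
      (400 * ((l : ℝ) + 1) * (2 * ((n : ℝ) + j) + 1)) =
      (2 / 3 : ℝ) ^ n / (n.factorial : ℝ) * (Ring.choose μ (l + 1) * ((l : ℝ) + 1)) * 2 ^ (l + 1) *
        s * D * (400 * (2 * ((n : ℝ) + j) + 1)) := by ring
  rw [key, hs]
  field_simp
  ring

/-- product of the denominators -/
noncomputable def BB (j r : ℕ) : ℝ :=
  ∏ s ∈ range r, ((400 * (s + 1) * (6 * j - (2 * s + 1)) : ℕ) : ℝ)

lemma BB_succ (j r : ℕ) : BB j (r + 1) = BB j r * ((400 * (r + 1) * (6 * j - (2 * r + 1)) : ℕ) : ℝ) := by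
  rw [BB, prod_range_succ]; rfl

lemma yl_inv (j c : ℕ) (μ : ℝ) (hμ : (c : ℝ) = -200 * μ) (n : ℕ) :
    ∀ r A Y : ℕ, r + n = 2 * j → (A : ℝ) * TT j μ 0 = BB j r * TT j μ r →
      (Y : ℝ) * TT j μ 0 = BB j r * ∑ l ∈ range (r + 1), TT j μ l →
      (yl j c n r A Y : ℝ) * TT j μ 0 = BB j (2 * j) * ∑ l ∈ range (2 * j + 1), TT j μ l := by
  induction n with
  | zero =>
    intro r A Y hr _ hY
    rw [yl_zero, hY, show r = 2 * j by omega]
  | succ n ih =>
    intro r A Y hr hA hY
    rw [yl_succ]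
    have hT := TT_succ j c μ hμ r (by omega)
    have hA' : ((A * (6 * (2 * j - r) * (c + 200 * r)) : ℕ) : ℝ) * TT j μ 0 =
        BB j (r + 1) * TT j μ (r + 1) := by
      rw [Nat.cast_mul, BB_succ]
      linear_combination ((6 * (2 * j - r) * (c + 200 * r) : ℕ) : ℝ) * hA - BB j r * hT
    apply ih (r + 1) _ _ (by omega) hA'
    rw [Nat.cast_add, add_mul, hA', sum_range_succ (fun l => TT j μ l) (r + 1), mul_add,
      Nat.cast_mul, BB_succ]
    linear_combination ((400 * (r + 1) * (6 * j - (2 * r + 1)) : ℕ) : ℝ) * hY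

lemma BB_val (j r : ℕ) (hr : r ≤ 2 * j) :
    BB j r * ((6 * j - 2 * r - 1).doubleFactorial : ℝ) =
      400 ^ r * (r.factorial : ℝ) * ((6 * j - 1).doubleFactorial : ℝ) := by
  induction r with
  | zero => simp [BB]
  | succ r ih =>
    have ih' := ih (by omega)
    have e : 6 * j - 2 * r - 1 = (6 * j - 2 * (r + 1) - 1) + 2 := by omega
    rw [e, Nat.doubleFactorial_add_two] at ih'
    have e2 : 6 * j - (2 * r + 1) = 6 * j - 2 * (r + 1) - 1 + 2 := by omega
    rw [BB_succ, e2, Nat.factorial_succ]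
    push_cast at ih' ⊢
    linear_combination (400 * ((r : ℝ) + 1)) * ih'

lemma mm_eq_sum (j : ℕ) (μ : ℝ) : mm j μ = ∑ l ∈ range (2 * j + 1), TT j μ l := by
  unfold mm
  rw [← Finset.sum_range_reflect]
  apply sum_congr rfl
  intro l hl
  have hl' : l ≤ 2 * j := by simpa [Nat.lt_succ_iff] using hl
  have e1 : 2 * j + 1 - 1 - l = 2 * j - l := by omega
  have e2 : 2 * j - (2 * j - l) = l := by omega
  unfold TT
  rw [e1, e2]

lemma mm_eq (j c : ℕ) (μ : ℝ) (hμ : (c : ℝ) = -200 * μ) :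
    mm j μ = (-1) ^ j * (yl j c (2 * j) 0 1 1 : ℝ) * (((2 * j - 1).doubleFactorial : ℕ) : ℝ) *
      (2 / 3) ^ (2 * j) / (400 ^ (2 * j) * ((2 * j).factorial : ℝ) ^ 2) := by
  have h := yl_inv j c μ hμ (2 * j) 0 1 1 (by omega) (by simp [BB]) (by simp [BB])
  rw [← mm_eq_sum] at h
  have hB := BB_val j (2 * j) le_rfl
  have e : 6 * j - 2 * (2 * j) - 1 = 2 * j - 1 := by omega
  rw [e] at hB
  have hT : TT j μ 0 = (2 / 3) ^ (2 * j) / ((2 * j).factorial : ℝ) * (-1) ^ (2 * j + j) *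
      ((6 * j - 1).doubleFactorial : ℝ) := by
    unfold TT
    rw [Ring.choose_zero_right, show 2 * (2 * j - 0 + j) - 1 = 6 * j - 1 by omega]
    simp
  have h1 : (((2 * j).factorial : ℕ) : ℝ) ≠ 0 := by positivity
  have h2 : (((6 * j - 1).doubleFactorial : ℕ) : ℝ) ≠ 0 := by
    exact_mod_cast (Nat.doubleFactorial_pos _).ne'
  have h3 : (((2 * j - 1).doubleFactorial : ℕ) : ℝ) ≠ 0 := by
    exact_mod_cast (Nat.doubleFactorial_pos _).ne'
  have hs : (-1 : ℝ) ^ (2 * j + j) = (-1) ^ j := by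
    rw [pow_add, pow_mul]; simp
  rw [hT, hs] at h
  rw [eq_div_iff (by positivity)]
  -- multiply `h` by the double factorial
  have h4 : mm j μ * (400 ^ (2 * j) * ((2 * j).factorial : ℝ) * ((6 * j - 1).doubleFactorial : ℝ)) =
      (yl j c (2 * j) 0 1 1 : ℝ) * ((2 / 3) ^ (2 * j) / ((2 * j).factorial : ℝ) * (-1) ^ j *
      ((6 * j - 1).doubleFactorial : ℝ)) * ((2 * j - 1).doubleFactorial : ℝ) := by
    rw [h, ← hB]; ring
  have h5 : mm j μ * (400 ^ (2 * j) * ((2 * j).factorial : ℝ) ^ 2) *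
      ((6 * j - 1).doubleFactorial : ℝ) =
      ((-1) ^ j * (yl j c (2 * j) 0 1 1 : ℝ) * (((2 * j - 1).doubleFactorial : ℕ) : ℝ) *
      (2 / 3) ^ (2 * j)) * ((6 * j - 1).doubleFactorial : ℝ) := by
    have ha : (2 / 3 : ℝ) ^ (2 * j) / ((2 * j).factorial : ℝ) * ((2 * j).factorial : ℝ) =
        (2 / 3 : ℝ) ^ (2 * j) := div_mul_cancel₀ _ h1
    rw [← ha]
    linear_combination ((2 * j).factorial : ℝ) * h4
  exact mul_right_cancel₀ h2 h5

/-! ### The coefficients `aa` -/

lemma aa_succ (i : ℕ) : aa (i + 1) * (2 * ((i : ℝ) + 1)) =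
    aa i * (3 * (6 * (i : ℝ) + 1) * (6 * (i : ℝ) + 5)) := by
  unfold aa
  have e1 : 6 * (i + 1) - 1 = 6 * i + 1 + 2 + 2 := by omega
  have e2 : 2 * (i + 1) = 2 * i + 1 + 1 := by ring
  rw [e1, Nat.doubleFactorial_add_two, Nat.doubleFactorial_add_two, Nat.doubleFactorial_add_one, e2,
    Nat.factorial_succ, Nat.factorial_succ]
  have h1 : (((2 * i).factorial : ℕ) : ℝ) ≠ 0 := by positivity
  push_cast
  have h2 : (2 * (i : ℝ) + 1) ≠ 0 := by positivity
  have h3 : (2 * (i : ℝ) + 1 + 1) ≠ 0 := by positivity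
  field_simp
  ring

lemma aa_int (i : ℕ) : ∃ A : ℕ, (A : ℝ) = 8 ^ i * aa i := by
  rcases Nat.eq_zero_or_pos i with rfl | hi
  · exact ⟨1, by simp [aa]⟩
  have h : (6 * i).factorial = 8 ^ i * (3 * i).factorial * (6 * i - 1).doubleFactorial := by
    obtain ⟨m, hm⟩ : ∃ m, 6 * i = m + 1 := ⟨6 * i - 1, by omega⟩
    rw [hm, Nat.factorial_eq_mul_doubleFactorial, ← hm, show 6 * i = 2 * (3 * i) by ring,
      Nat.doubleFactorial_two_mul, show m = 2 * (3 * i) - 1 by omega,
      pow_mul]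
    norm_num
  have hd : (3 * i).factorial * (2 * i).factorial ∣ (6 * i).factorial :=
    (Nat.factorial_mul_factorial_dvd_factorial_add (3 * i) (2 * i)).trans
      (Nat.factorial_dvd_factorial (by omega))
  obtain ⟨A, hA⟩ := hd
  refine ⟨A, ?_⟩
  have h1 : (((3 * i).factorial : ℕ) : ℝ) ≠ 0 := by positivity
  have h2 : (((2 * i).factorial : ℕ) : ℝ) ≠ 0 := by positivity
  rw [h] at hA
  have hA' : (8 : ℝ) ^ i * ((3 * i).factorial : ℝ) * ((6 * i - 1).doubleFactorial : ℝ) =
      ((3 * i).factorial : ℝ) * ((2 * i).factorial : ℝ) * A := by exact_mod_cast hA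
  unfold aa
  field_simp
  apply mul_left_cancel₀ h1
  linear_combination -hA'

/-- the entries of a list are the right coefficients -/
def CL : ℕ → List ℕ → Prop
  | _, [] => True
  | i, c :: cs => (c : ℝ) = 8 ^ i * 100 ^ (i - 1) * aa i ∧ CL (i + 1) cs

lemma csl_succ (n i c : ℕ) : csl (n + 1) i c =
    c :: csl n (i + 1) (c * (1200 * (6 * i + 1) * (6 * i + 5)) / (i + 1)) := rfl

lemma csl_CL (n : ℕ) : ∀ i c : ℕ, 1 ≤ i → (c : ℝ) = 8 ^ i * 100 ^ (i - 1) * aa i →
    CL i (csl n i c) := by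
  induction n with
  | zero => intro i c _ _; exact trivial
  | succ n ih =>
    intro i c hi hc
    rw [csl_succ]
    refine ⟨hc, ih (i + 1) _ (by omega) ?_⟩
    obtain ⟨A, hA⟩ := aa_int (i + 1)
    obtain ⟨k, rfl⟩ : ∃ k, i = k + 1 := ⟨i - 1, by omega⟩
    have hs := aa_succ (k + 1)
    have key : c * (1200 * (6 * (k + 1) + 1) * (6 * (k + 1) + 5)) =
        (k + 1 + 1) * (A * 100 ^ (k + 1)) := by
      have : (c : ℝ) * (1200 * (6 * (k + 1) + 1) * (6 * (k + 1) + 5)) =
          (k + 1 + 1) * (A * 100 ^ (k + 1)) := by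
        rw [hc, hA, Nat.add_sub_cancel, pow_succ (100 : ℝ) k, pow_succ (8 : ℝ) (k + 1)]
        push_cast at hs
        linear_combination (-(8 : ℝ) ^ (k + 1) * 100 ^ k * 400) * hs
      exact_mod_cast this
    rw [key, Nat.mul_div_cancel_left _ (by omega)]
    push_cast
    rw [hA]
    ring

/-! ### The coefficients `ee` -/

/-- the parameter -/
noncomputable abbrev xx : ℝ := 601 / 100

/-- the entries of a list are the right integers -/
def EG : List ℕ → Prop
  | [] => True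
  | e :: es => (e : ℝ) = (es.length.factorial : ℝ) * 800 ^ es.length * ee xx es.length ∧ EG es

/-- the terms of the recursion for `ee` -/
noncomputable def UU (j s : ℕ) : ℝ := (j.factorial : ℝ) * 800 ^ (j + 1) *
  ((xx * ((s : ℝ) + 1) - ((j : ℝ) - s)) * aa (s + 1) * ee xx (j - s))

lemma sum_UU (j : ℕ) : ∑ s ∈ range (j + 1), UU j s =
    ((j + 1).factorial : ℝ) * 800 ^ (j + 1) * ee xx (j + 1) := by
  rw [ee]
  unfold UU
  rw [← mul_sum, Finset.sum_range (fun s => (xx * ((s : ℝ) + 1) - ((j : ℝ) - s)) * aa (s + 1) *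
    ee xx (j - s)), Nat.factorial_succ]
  have h : ((j : ℝ) + 1) ≠ 0 := by positivity
  push_cast
  field_simp

lemma goE_nil (j : ℕ) (es0 cs : List ℕ) (i F pos neg : ℕ) :
    goE j es0 [] cs i F pos neg = cond (Nat.ble neg pos) ((pos - neg) :: es0) [] := rfl

lemma goE_cons_nil (j e : ℕ) (es0 es : List ℕ) (i F pos neg : ℕ) :
    goE j es0 (e :: es) [] i F pos neg = [] := rfl

lemma goE_cons_cons (j e c : ℕ) (es0 es cs : List ℕ) (i F pos neg : ℕ) :
    goE j es0 (e :: es) (c :: cs) i F pos neg = goE j es0 es cs (i + 1) (F * (j - i))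
      (pos + (601 * (i + 1) - 100 * (j - i)) * (c * F * e))
      (neg + (100 * (j - i) - 601 * (i + 1)) * (c * F * e)) := rfl

lemma goE_shape (j : ℕ) (es0 : List ℕ) (es : List ℕ) : ∀ (cs : List ℕ) (i F pos neg : ℕ),
    goE j es0 es cs i F pos neg = [] ∨ ∃ e : ℕ, goE j es0 es cs i F pos neg = e :: es0 := by
  induction es with
  | nil =>
    intro cs i F pos neg
    rw [goE_nil]
    cases Nat.ble neg pos
    · left; rfl
    · right; exact ⟨_, rfl⟩
  | cons e es ih =>
    intro cs i F pos neg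
    cases cs with
    | nil => left; rfl
    | cons c cs => rw [goE_cons_cons]; exact ih _ _ _ _ _

lemma cast_tsub (a b : ℕ) : (((a - b : ℕ) : ℝ)) - ((b - a : ℕ) : ℝ) = (a : ℝ) - b := by
  rcases le_total a b with h | h
  · rw [Nat.sub_eq_zero_of_le h, Nat.cast_sub h]; simp
  · rw [Nat.sub_eq_zero_of_le h, Nat.cast_sub h]; simp

lemma goE_spec (j : ℕ) (es0 : List ℕ) (es : List ℕ) : ∀ (cs : List ℕ) (i F pos neg : ℕ),
    EG es → CL (i + 1) cs → es.length + i = j + 1 →
    (i ≤ j → F * (j - i).factorial = j.factorial) →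
    ((pos : ℝ) - neg = ∑ s ∈ range i, UU j s) →
    goE j es0 es cs i F pos neg = [] ∨ ∃ e : ℕ, goE j es0 es cs i F pos neg = e :: es0 ∧
      (e : ℝ) = ∑ s ∈ range (j + 1), UU j s := by
  induction es with
  | nil =>
    intro cs i F pos neg _ _ hi _ hs
    have hi' : i = j + 1 := by simpa using hi
    rw [goE_nil]
    cases hb : Nat.ble neg pos
    · left; rfl
    · right
      refine ⟨_, rfl, ?_⟩
      rw [Nat.cast_sub (Nat.le_of_ble_eq_true hb), hs, hi']
  | cons e es ih =>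
    intro cs i F pos neg hE hC hi hF hs
    cases cs with
    | nil => left; rfl
    | cons c cs =>
      rw [goE_cons_cons]
      simp only [List.length_cons] at hi
      have hij : i ≤ j := by omega
      have hlen : es.length = j - i := by omega
      obtain ⟨hc, hC'⟩ := hC
      obtain ⟨he, hE'⟩ := hE
      have hF' := hF hij
      apply ih cs (i + 1) _ _ _ hE' hC' (by omega)
      · intro h
        have : j - i = (j - (i + 1)) + 1 := by omega
        rw [← hF', this, Nat.factorial_succ]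
        ring
      · rw [sum_range_succ, ← hs]
        push_cast
        have h1 := cast_tsub (601 * (i + 1)) (100 * (j - i))
        push_cast [Nat.cast_sub hij] at h1
        have hFr : (F : ℝ) * ((j - i).factorial : ℝ) = (j.factorial : ℝ) := by exact_mod_cast hF'
        have hpow : (800 : ℝ) ^ (j + 1) = 800 ^ (j - i) * 8 ^ (i + 1) * 100 ^ i * 100 := by
          rw [show j + 1 = (j - i) + (i + 1) by omega, pow_add,
            show (800 : ℝ) ^ (i + 1) = (8 * 100) ^ (i + 1) by norm_num, mul_pow,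
            pow_succ (100 : ℝ) i]
          ring
        rw [hlen] at he
        rw [Nat.add_sub_cancel] at hc
        have hU : UU j i = (601 * ((i : ℝ) + 1) - 100 * ((j : ℝ) - i)) * (c * F * e) := by
          unfold UU
          rw [hpow, ← hFr, hc, he]
          unfold xx
          ring
        rw [hU]
        linear_combination ((c : ℝ) * F * e) * h1

lemma EL_succ (n m : ℕ) :
    EL (n + 1) m = goE n (EL n m) (EL n m) (csl m 1 60) 0 1 0 0 := rfl

lemma EL_spec (m n : ℕ) : (EL n m).length ≤ n + 1 ∧ ((EL n m).length = n + 1 → EG (EL n m)) := by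
  induction n with
  | zero =>
    refine ⟨le_rfl, fun _ => ⟨?_, trivial⟩⟩
    simp [ee]
  | succ n ih =>
    rw [EL_succ]
    set L := EL n m with hL
    have h60 : ((60 : ℕ) : ℝ) = 8 ^ 1 * 100 ^ (1 - 1) * aa 1 := by
      have : (5 : ℕ).doubleFactorial = 15 := by decide
      simp [aa, Nat.factorial]
      norm_num
    have hC : CL (0 + 1) (csl m 1 60) := csl_CL m 1 60 le_rfl h60
    constructor
    · rcases goE_shape n L L (csl m 1 60) 0 1 0 0 with h | ⟨e, h⟩
      · rw [h]; simp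
      · rw [h]; simpa using ih.1
    · intro hlen
      rcases goE_shape n L L (csl m 1 60) 0 1 0 0 with h | ⟨e, h⟩
      · rw [h] at hlen; simp at hlen
      · rw [h] at hlen
        have hlL : L.length = n + 1 := by simpa using hlen
        have hEL := ih.2 hlL
        rcases goE_spec n L L (csl m 1 60) 0 1 0 0 hEL hC (by omega) (by simp) (by simp) with
          h' | ⟨e', h', he'⟩
        · rw [h] at h'; exact absurd h' (List.cons_ne_nil _ _)
        · rw [h']
          refine ⟨?_, hEL⟩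
          rw [he', sum_UU, hlL]

/-! ### The outer loop -/

/-- the weights -/
noncomputable def W (j k : ℕ) : ℝ := xx ^ k * 9 ^ j * (((2 * j - 1).doubleFactorial : ℕ) : ℝ) *
  (2 / 3) ^ (2 * j) / (400 ^ (2 * j) * ((2 * j).factorial : ℝ) ^ 2 * ((k.factorial : ℝ) * 800 ^ k))

lemma W_pos (j k : ℕ) : 0 < W j k := by
  have h : (0 : ℝ) < (((2 * j - 1).doubleFactorial : ℕ) : ℝ) := by
    exact_mod_cast Nat.doubleFactorial_pos (2 * j - 1)
  unfold W xx
  positivity

lemma W_step (j k : ℕ) : W j (k + 1) * ((2 * (k + 1) * (2 * (j + 1) - 1) : ℕ) : ℝ) =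
    W (j + 1) k * ((601 * (2 * (j + 1) * (2 * (j + 1) - 1)) ^ 2 : ℕ) : ℝ) := by
  have e1 : 2 * (j + 1) - 1 = 2 * j + 1 := by omega
  have e2 : 2 * (j + 1) = 2 * j + 1 + 1 := by ring
  unfold W xx
  rw [e1, Nat.doubleFactorial_add_one, e2, Nat.factorial_succ (2 * j + 1),
    Nat.factorial_succ (2 * j), Nat.factorial_succ k]
  have h : (0 : ℝ) < (((2 * j - 1).doubleFactorial : ℕ) : ℝ) := by
    exact_mod_cast Nat.doubleFactorial_pos (2 * j - 1)
  have h1 : (0 : ℝ) < (((2 * j).factorial : ℕ) : ℝ) := by positivity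
  have h2 : (0 : ℝ) < ((k.factorial : ℕ) : ℝ) := by positivity
  push_cast
  have h3 : (2 * (j : ℝ) + 1) ≠ 0 := by positivity
  have h4 : (2 * (j : ℝ) + 1 + 1) ≠ 0 := by positivity
  have h5 : ((k : ℝ) + 1) ≠ 0 := by positivity
  field_simp
  ring

lemma term_eq (j k E : ℕ) (hE : (E : ℝ) = (k.factorial : ℝ) * 800 ^ k * ee xx k) :
    ee xx k * xx ^ k * 9 ^ j * mm j (1 - xx / 2 - 3 * k) =
      (-1) ^ j * ((E : ℝ) * (yl j (401 + 600 * k) (2 * j) 0 1 1 : ℝ)) * W j k := by
  rw [mm_eq j (401 + 600 * k) _ (by unfold xx; push_cast; ring)]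
  unfold W
  rw [hE]
  have h1 : (0 : ℝ) < (((2 * j).factorial : ℕ) : ℝ) := by positivity
  have h2 : (0 : ℝ) < ((k.factorial : ℕ) : ℝ) := by positivity
  field_simp

/-- the tails of the sum -/
noncomputable def RT (N k : ℕ) : ℝ := ∑ i ∈ Ico k (N + 1),
  ee xx i * xx ^ i * 9 ^ (N - i) * mm (N - i) (1 - xx / 2 - 3 * i)

lemma RT_step (N k : ℕ) (h : k ≤ N) : RT N k =
    ee xx k * xx ^ k * 9 ^ (N - k) * mm (N - k) (1 - xx / 2 - 3 * k) + RT N (k + 1) := by
  unfold RT
  rw [Finset.sum_eq_sum_Ico_succ_bot (by omega)]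

lemma fin_nil (j k D P M : ℕ) : fin [] j k D P M = Nat.ble (P + 1) M := rfl

lemma fin_cons (e : ℕ) (es : List ℕ) (j k D P M : ℕ) : fin (e :: es) j k D P M =
    fin es (j + 1) (k - 1) (D * (2 * (k + 1) * (2 * j - 1)))
      (e * (D * (2 * (k + 1) * (2 * j - 1))) * yl j (401 + 600 * k) (2 * j) 0 1 1 +
        601 * (2 * j * (2 * j - 1)) ^ 2 * M)
      (601 * (2 * j * (2 * j - 1)) ^ 2 * P) := rfl

lemma fin_spec (N : ℕ) (es : List ℕ) : ∀ (j D P M : ℕ), EG es → j + es.length = N → 0 < D →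
    ((P : ℝ) - M) * W j es.length = (-1) ^ j * RT N es.length * D →
    fin es (j + 1) (es.length - 1) D P M = true → (-1) ^ N * RT N 0 < 0 := by
  induction es with
  | nil =>
    intro j D P M _ hj hD h hf
    rw [fin_nil] at hf
    have hle : P + 1 ≤ M := Nat.le_of_ble_eq_true hf
    have hj' : j = N := by simpa using hj
    subst hj'
    have hlt : (P : ℝ) - M < 0 := by
      have : ((P + 1 : ℕ) : ℝ) ≤ (M : ℝ) := by exact_mod_cast hle
      push_cast at this
      linarith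
    have h1 : ((P : ℝ) - M) * W j 0 < 0 := mul_neg_of_neg_of_pos hlt (W_pos j 0)
    simp only [List.length_nil] at h
    rw [h] at h1
    have hD' : (0 : ℝ) < (D : ℝ) := by exact_mod_cast hD
    by_contra hcon
    rw [not_lt] at hcon
    exact absurd h1 (not_lt.mpr (mul_nonneg hcon hD'.le))
  | cons e es ih =>
    intro j D P M hE hj hD h hf
    obtain ⟨he, hE'⟩ := hE
    rw [fin_cons] at hf
    simp only [List.length_cons, Nat.add_sub_cancel] at hf h hj
    apply ih (j + 1) _ _ _ hE' (by omega) _ _ hf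
    · have : 0 < 2 * (es.length + 1) * (2 * (j + 1) - 1) := by
        apply Nat.mul_pos (by omega) (by omega)
      exact Nat.mul_pos hD this
    · have hk : N - es.length = j + 1 := by omega
      have hRT := RT_step N es.length (by omega)
      have hT := term_eq (j + 1) es.length e he
      rw [hk, hT] at hRT
      rw [hRT]
      have hW := W_step j es.length
      clear hf ih hT hRT he
      generalize 601 * (2 * (j + 1) * (2 * (j + 1) - 1)) ^ 2 = g at hW ⊢
      generalize 2 * (es.length + 1) * (2 * (j + 1) - 1) = d at hW ⊢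
      generalize yl (j + 1) (401 + 600 * es.length) (2 * (j + 1)) 0 1 1 = Y
      rw [Nat.cast_add, Nat.cast_mul, Nat.cast_mul, Nat.cast_mul, Nat.cast_mul, Nat.cast_mul]
      have hsq : ((-1 : ℝ) ^ (j + 1)) * (-1) ^ (j + 1) = 1 := by
        rw [← mul_pow]; simp
      have hsq2 : ((-1 : ℝ) ^ (j + 1)) = - (-1) ^ j := by rw [pow_succ]; ring
      linear_combination ((P : ℝ) - M) * hW - (d : ℝ) * h +
        (-(e : ℝ) * Y * W (j + 1) es.length * D * d) * hsq - (RT N (es.length + 1) * D * d) * hsq2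

lemma chk_spec (N : ℕ) (h : chk N = true) : (-1) ^ N * RT N 0 < 0 := by
  have hs := EL_spec N N
  unfold chk at h
  revert h hs
  generalize EL N N = L
  intro h hs
  beta_reduce at h
  cases hb : Nat.beq L.length (Nat.succ N) with
  | false => rw [hb] at h; exact absurd h (by simp)
  | true =>
    rw [hb] at h
    have hlen : L.length = N + 1 := Nat.eq_of_beq_eq_true hb
    have hEG := hs.2 hlen
    cases L with
    | nil => simp at hlen
    | cons e es =>
      have hl : es.length = N := by simpa using hlen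
      obtain ⟨he, hE'⟩ := hEG
      have hf : fin es 1 (N - 1) 1 e 0 = true := h
      rw [← hl] at hf
      have := fin_spec es.length es 0 1 e 0 hE' (by omega) one_pos ?_ hf
      · rwa [hl] at this
      · have hRT := RT_step es.length es.length le_rfl
        have hT := term_eq 0 es.length e he
        have h0 : RT es.length (es.length + 1) = 0 := by unfold RT; simp
        rw [Nat.sub_self, hT, h0] at hRT
        rw [hRT, yl_zero]
        push_cast
        ring

set_option maxRecDepth 100000 in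
theorem chk_true : chk 440 = true := by decide +kernel

end Kernel

theorem RR_neg : RR 440 (601 / 100) < 0 := by
  have h := Kernel.chk_spec 440 Kernel.chk_true
  have e : Kernel.RT 440 0 = RR 440 (601 / 100) := by
    unfold Kernel.RT RR
    rw [Finset.range_eq_Ico]
  rw [e] at h
  have hs : (-1 : ℝ) ^ 440 = 1 := by norm_num
  rw [hs, one_mul] at h
  exact h

end Pool.Agent.H69Cubic
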